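import Pool.Agent.H24.TU.TayOrd
import Pool.Agent.H24.TU.TrD

/-!
# [H41 TQ Dom] THEOREM Q, chapter (6): primes of `K ⊗ K`

* `dom_tensor`: `K ⊗[k] K` is a domain.  Proof: `tay C` is an injective (`tay_inj`, `H24/TU/TayOrd.lean`) multiplicative and additive map
  (`tay_mul`, `tay_add` or the ring homomorphism of `H24/TU/TayRing.lean`) to a power series ring over a field.  (Or with Mathlib, if
  the tensor product of two extension fields of an algebraically closed field is known to be a domain there.)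
* `trdeg_quot_le`: `trdeg_K ((K ⊗ K) / P) ≤ 3`.  Proof: let `t : Fin 3 → K` be a transcendence basis of `K / k`.  Every `1 ⊗ f` is
  algebraic over `k[1 ⊗ t_i]`, so `(K ⊗ K) / P` is algebraic over `K[class of 1 ⊗ t_i]` (as `fl_alg` in `H24/TU/Fld.lean`:
  `Subalgebra.algebraicClosure`), so the transcendence degree is at most `3` (`Algebra.trdeg_le_of_..`, or choose a transcendence basis
  inside the range of the classes of `1 ⊗ t_i`: `exists_isTranscendenceBasis_subset` and `Cardinal.mk_range_le`).  See also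
  `trdeg_quot_fin` in `H24/TU/TrD.lean`.
* `trdeg_two`: a chain of primes `Q < P < dI` with `Q ≠ ⊥` has `trdeg_K ((K ⊗ K) / Q) = 2`, and a prime `Q₀ ≤ Q`, `Q₀ ≠ ⊥` is `Q`.
  Proof: `trdeg_quot_lt` (`H24/TU/TrD.lean`; the degrees are finite by `trdeg_quot_fin`) for `⊥ < Q < P < dI` (`⊥` is prime by
  `dom_tensor`), `trdeg_dI` (degree `0`), `trdeg_quot_le` for `⊥`: `0 < trdeg P < trdeg Q < trdeg ⊥ ≤ 3`.  If `Q₀ < Q` then
  `0 < trdeg P < trdeg Q < trdeg Q₀ < trdeg ⊥ ≤ 3`: impossible.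
-/

set_option autoImplicit false

open scoped TensorProduct

namespace Pool.Agent.H41.TQ

open Pool.Agent.H24.TU

universe u

variable {k K : Type u} [Field k] [CharZero k] [IsAlgClosed k] [Field K] [Algebra k K]

theorem dom_tensor (C : Coord k K) : IsDomain (K ⊗[k] K) := by
  have hnt : Nontrivial (K ⊗[k] K) := by
    have h : (dI k K).IsPrime := inferInstance
    refine ⟨0, 1, fun h01 => h.ne_top ((Ideal.eq_top_iff_one _).2 ?_)⟩
    rw [← h01]
    exact Ideal.zero_mem _
  have hz : NoZeroDivisors (K ⊗[k] K) := by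
    refine ⟨fun {a b} hab => ?_⟩
    have h0 : tay C (0 : K ⊗[k] K) = 0 := by
      have := tay_smul C (0 : K) (0 : K ⊗[k] K)
      rwa [zero_smul, zero_smul] at this
    have h1 : tay C a * tay C b = 0 := by rw [← tay_mul, hab, h0]
    rcases mul_eq_zero.1 h1 with h | h
    · exact Or.inl (tay_inj C h)
    · exact Or.inr (tay_inj C h)
  exact NoZeroDivisors.to_isDomain _

/-- The right factor in the quotient. -/
private noncomputable def rh (P : Ideal (K ⊗[k] K)) : K →+* ((K ⊗[k] K) ⧸ P) :=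
  (Ideal.Quotient.mk P).comp (Algebra.TensorProduct.includeRight : K →ₐ[k] K ⊗[k] K).toRingHom

omit [CharZero k] [IsAlgClosed k] in
private theorem rh_apply (P : Ideal (K ⊗[k] K)) (f : K) :
    rh P f = Ideal.Quotient.mk P ((1 : K) ⊗ₜ[k] f) := rfl

omit [CharZero k] [IsAlgClosed k] in
private theorem rh_k (P : Ideal (K ⊗[k] K)) (r : k) :
    rh P (algebraMap k K r) = algebraMap K ((K ⊗[k] K) ⧸ P) (algebraMap k K r) := by
  rw [rh_apply]
  show _ = Ideal.Quotient.mk P ((algebraMap k K r) ⊗ₜ[k] (1 : K))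
  rw [Algebra.algebraMap_eq_smul_one, TensorProduct.tmul_smul, TensorProduct.smul_tmul']

omit [CharZero k] [IsAlgClosed k] in
private theorem rh_alg (P : Ideal (K ⊗[k] K)) [hP : P.IsPrime] {ι : Type*} (u : ι → K)
    (hu : Algebra.IsAlgebraic (Algebra.adjoin k (Set.range u)) K) :
    Algebra.IsAlgebraic (Algebra.adjoin K (Set.range fun i => rh P (u i)))
      ((K ⊗[k] K) ⧸ P) := by
  have : IsDomain ((K ⊗[k] K) ⧸ P) := Ideal.Quotient.isDomain _
  have hmem : ∀ a ∈ Algebra.adjoin k (Set.range u),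
      rh P a ∈ Algebra.adjoin K (Set.range fun i => rh P (u i)) := by
    intro a ha
    induction ha using Algebra.adjoin_induction with
    | mem a ha =>
      obtain ⟨i, rfl⟩ := ha
      exact Algebra.subset_adjoin ⟨i, rfl⟩
    | algebraMap r =>
      rw [rh_k P r]
      exact Subalgebra.algebraMap_mem _ _
    | add a b _ _ ha hb => rw [map_add]; exact Subalgebra.add_mem _ ha hb
    | mul a b _ _ ha hb => rw [map_mul]; exact Subalgebra.mul_mem _ ha hb
  let θ : Algebra.adjoin k (Set.range u) →+*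
      Algebra.adjoin K (Set.range fun i => rh P (u i)) :=
    ((rh P).comp (algebraMap (Algebra.adjoin k (Set.range u)) K)).codRestrict
      (Algebra.adjoin K (Set.range fun i => rh P (u i))) (fun a => hmem a a.2)
  have hθ : (algebraMap (Algebra.adjoin K (Set.range fun i => rh P (u i)))
      ((K ⊗[k] K) ⧸ P)).comp θ =
      (rh P).comp (algebraMap (Algebra.adjoin k (Set.range u)) K) := by
    ext a
    rfl
  have hθi : Function.Injective θ := by
    intro a b hab
    have h1 := congrArg (algebraMap (Algebra.adjoin K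
      (Set.range fun i => rh P (u i))) ((K ⊗[k] K) ⧸ P)) hab
    have h2 : rh P (a : K) = rh P (b : K) := h1
    exact Subtype.ext ((rh P).injective h2)
  have hr : ∀ f : K, IsAlgebraic
      (Algebra.adjoin K (Set.range fun i => rh P (u i))) (rh P f) := by
    intro f
    obtain ⟨q, hq, hq0⟩ := hu.isAlgebraic f
    refine ⟨q.map θ, (Polynomial.map_ne_zero_iff hθi).2 hq, ?_⟩
    rw [Polynomial.aeval_def, Polynomial.eval₂_map, hθ, ← Polynomial.hom_eval₂]
    rw [Polynomial.aeval_def] at hq0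
    rw [hq0, map_zero]
  constructor
  intro z
  obtain ⟨t, rfl⟩ := Ideal.Quotient.mk_surjective z
  have key : Ideal.Quotient.mk P t ∈ Subalgebra.algebraicClosure
      (Algebra.adjoin K (Set.range fun i => rh P (u i)))
      ((K ⊗[k] K) ⧸ P) := by
    induction t using TensorProduct.induction_on with
    | zero => rw [map_zero]; exact Subalgebra.zero_mem _
    | add a b ha hb => rw [map_add]; exact Subalgebra.add_mem _ ha hb
    | tmul a f =>
      have h1 : Ideal.Quotient.mk P (a ⊗ₜ[k] f) =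
          algebraMap K ((K ⊗[k] K) ⧸ P) a * rh P f := by
        have h2 : (a ⊗ₜ[k] f : K ⊗[k] K) = (a ⊗ₜ[k] (1 : K)) * ((1 : K) ⊗ₜ[k] f) := by
          rw [Algebra.TensorProduct.tmul_mul_tmul, one_mul, mul_one]
        rw [h2, map_mul]
        rfl
      rw [h1]
      refine Subalgebra.mul_mem _ ?_ (hr f)
      exact Subalgebra.algebraMap_mem (Subalgebra.algebraicClosure
        (Algebra.adjoin K (Set.range fun i => rh P (u i)))
        ((K ⊗[k] K) ⧸ P)) (⟨_, Subalgebra.algebraMap_mem _ a⟩ :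
        Algebra.adjoin K (Set.range fun i => rh P (u i)))
  exact key

theorem trdeg_quot_le (htr : Algebra.trdeg k K = 3) (P : Ideal (K ⊗[k] K)) (hP : P.IsPrime) :
    Algebra.trdeg K ((K ⊗[k] K) ⧸ P) ≤ 3 := by
  have : IsDomain ((K ⊗[k] K) ⧸ P) := Ideal.Quotient.isDomain _
  obtain ⟨s, hs⟩ := exists_isTranscendenceBasis k K
  have h1 := rh_alg P (fun i : s => (i : K)) hs.isAlgebraic
  obtain ⟨t, hts, ht⟩ := exists_isTranscendenceBasis_subset (R := K)
    (A := (K ⊗[k] K) ⧸ P) (Set.range fun i : s => rh P (i : K))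
  rw [← ht.cardinalMk_eq_trdeg, ← htr, ← hs.cardinalMk_eq_trdeg]
  exact (Cardinal.mk_le_mk_of_subset hts).trans Cardinal.mk_range_le

theorem trdeg_two (htr : Algebra.trdeg k K = 3) (C : Coord k K) {Q P : Ideal (K ⊗[k] K)} (hQ : Q.IsPrime)
    (hP : P.IsPrime) (hQP : Q < P) (hPI : P < dI k K) (hQ0 : Q ≠ ⊥) :
    Algebra.trdeg K ((K ⊗[k] K) ⧸ Q) = 2 ∧ ∀ Q₀ : Ideal (K ⊗[k] K), Q₀.IsPrime → Q₀ ≤ Q → Q₀ ≠ ⊥ → Q₀ = Q := by
  have hdom := dom_tensor C
  have hbot : (⊥ : Ideal (K ⊗[k] K)).IsPrime := Ideal.isPrime_bot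
  have hI : (dI k K).IsPrime := inferInstance
  have hfin : ∀ P : Ideal (K ⊗[k] K), P.IsPrime →
      ∃ n : ℕ, n ≤ 3 ∧ Algebra.trdeg K ((K ⊗[k] K) ⧸ P) = n := by
    intro P hP
    have h := trdeg_quot_le htr P hP
    have h3 : (3 : Cardinal.{u}) = ((3 : ℕ) : Cardinal.{u}) := by norm_num
    rw [h3] at h
    obtain ⟨n, hn⟩ := Cardinal.lt_aleph0.1 (h.trans_lt (Cardinal.natCast_lt_aleph0))
    refine ⟨n, ?_, hn⟩
    rw [hn] at h
    exact_mod_cast h
  have hlt : ∀ P Q : Ideal (K ⊗[k] K), P.IsPrime → Q.IsPrime → P < Q →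
      Algebra.trdeg K ((K ⊗[k] K) ⧸ Q) < Algebra.trdeg K ((K ⊗[k] K) ⧸ P) := by
    intro P Q hP hQ h
    obtain ⟨n, _, hn⟩ := hfin P hP
    refine trdeg_quot_lt hP hQ h ?_
    rw [hn]
    exact Cardinal.natCast_lt_aleph0
  obtain ⟨a, ha3, ha⟩ := hfin ⊥ hbot
  obtain ⟨b, hb3, hb⟩ := hfin Q hQ
  obtain ⟨c, hc3, hc⟩ := hfin P hP
  have h1 := hlt P (dI k K) hP hI hPI
  have h2 := hlt Q P hQ hP hQP
  have h3 := hlt ⊥ Q hbot hQ (bot_lt_iff_ne_bot.2 hQ0)
  rw [trdeg_dI, hc] at h1
  rw [hb, hc] at h2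
  rw [ha, hb] at h3
  have h1' : 0 < c := by exact_mod_cast h1
  have h2' : c < b := by exact_mod_cast h2
  have h3' : b < a := by exact_mod_cast h3
  constructor
  · rw [hb]
    have : b = 2 := by omega
    rw [this]
    norm_num
  · intro Q₀ hQ₀ hle hne
    by_contra hcon
    obtain ⟨e, he3, he⟩ := hfin Q₀ hQ₀
    have h4 := hlt Q₀ Q hQ₀ hQ (lt_of_le_of_ne hle hcon)
    have h5 := hlt ⊥ Q₀ hbot hQ₀ (bot_lt_iff_ne_bot.2 hne)
    rw [hb, he] at h4
    rw [ha, he] at h5
    have h4' : b < e := by exact_mod_cast h4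
    have h5' : e < a := by exact_mod_cast h5
    omega

end Pool.Agent.H41.TQ
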