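import Pool.Agent.H24.VP.Two
import Pool.Agent.H83.TU.UB

/-!
# [H41 TQ Dsj] THEOREM Q: prime divisors with intersection `0` are disjoint

`P ≠ P'` prime divisors with Cartier divisors `S`, `S'`, `T(G,S,S') = 0` for all `G`: the closures of `P.η` and `P'.η` have no common
point `x`.  On the surface `Z` of `P` the restriction of `S'` is effective, with the section `σ ≠ 0`, which vanishes at `x`.
Multiplication by `σ` maps the sections of `A ^ n` on `Z` injectively into those of `A ^ n S'`; the dimensions are equal for large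
`n`, as `h0 = chS`, `chS (A ^ n S') - chS (A ^ n) = n T(S,S',A) + (T(S',S',S) - T(S',S,S)) / 2 = 0`.  But for large `n` there is a
section of `A ^ n S'` on `X` which is a unit at `x`.
-/

set_option autoImplicit false

namespace Pool.Agent.H41.TQ

open Pool.Agent.H54.RV Pool.Agent.H83.TU Pool.Agent.H83.TK Pool.Agent.H24.TK Pool.Agent.H24.VP

variable {k K : Type} [Field k] [Field K] [Algebra k K] {X : Mod k K}
  {T : Cart X → Cart X → Cart X → ℝ} {l : Cart X → ℝ} {c : ℝ}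

private theorem fin_res [CharZero k] (h : Hyp X) {A : Cart X} (hA : Ample A) (z : X.P) (W : Cart (subM h.var z)) :
    Module.Finite k (secL W 1) :=
  fd (isVar_sub h.var z) ⟨_, gen_sub h.var z⟩ (res_ample h.var z A hA) W

/-- the number of sections on a prime surface, for large multiples -/
private theorem res_ev [CharZero k] (h : Hyp X) (hr : RR T l c) {A : Cart X} (hA : Ample A) (P : PDiv X)
    {S : Cart X} (hS : SPr X P.η S) (W : Cart X) :
    ∃ n₀ : ℕ, ∀ n ≥ n₀, (h0 (resD h.var P.η (W * A ^ n)) 1 : ℝ) = chS T l S (W * A ^ n) := by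
  obtain ⟨n1, h1⟩ := ser_ample h.var hA P.η W
  obtain ⟨n2, h2⟩ := hr.ev W A hA
  obtain ⟨n3, h3⟩ := hr.ev (W * S⁻¹) A hA
  refine ⟨n1 + n2 + n3, fun n hn => ?_⟩
  have e1 := h1 n (by omega)
  have e2 := h2 n (by omega)
  have e3 := h3 n (by omega)
  have hfin : Module.Finite k (secL (W * A ^ n) 1) := fd h.var h.gen hA _
  have e4 := ex_dim h.var hS (W * A ^ n) 1
  rw [LinearMap.range_eq_top.2 e1, finrank_top, pow_one] at e4
  have e5 : W * A ^ n * S⁻¹ = W * S⁻¹ * A ^ n := by rw [mul_right_comm]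
  rw [← hr.chi_sub S (W * A ^ n), e5, ← e2, ← e3]
  rw [e5] at e4
  have e6 : (h0 (W * A ^ n) 1 : ℝ) = (h0 (W * S⁻¹ * A ^ n) 1 : ℝ) +
      (h0 (resD h.var P.η (W * A ^ n)) 1 : ℝ) := by
    exact_mod_cast e4
  linarith

theorem not_sp [T0Space X.P] (h : Hyp X) (P P' : PDiv X) (hne : P.η ≠ P'.η) : ¬ P'.η ⤳ P.η := by
  intro h1
  by_cases h2 : P.η ⤳ P'.η
  · exact hne (h2.antisymm h1).eq
  · have h3 := trdeg_lt h.var h1 h2
    rw [trdeg_pdiv h P, trdeg_pdiv h P'] at h3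
    exact lt_irrefl _ h3

theorem disj [CharZero k] [T0Space X.P] (h : Hyp X) (hr : RR T l c) {A : Cart X} (hA : Ample A) (P P' : PDiv X)
    {S S' : Cart X} (hS : SPr X P.η S) (hS' : SPr X P'.η S') (hne : P.η ≠ P'.η) (h0' : ∀ G, T G S S' = 0)
    (x : X.P) : ¬ (P.η ⤳ x ∧ P'.η ⤳ x) := by
  rintro ⟨hx, hx'⟩
  have hX := h.var
  have ht := hr.tri
  -- the section of `S'`
  have hu : Un (X.O P.η) (S'.eq P.η) := hS'.un P.η (not_sp h P P' hne)
  have h1s : (1 : K) ∈ secL S' 1 := by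
    intro y
    rw [pow_one, one_mul]
    exact hS'.eff y
  obtain ⟨σ, hσ⟩ : ∃ σ : secL (resD hX P.η S') 1, σ = resS hX P.η S' 1 ⟨1, h1s⟩ := ⟨_, rfl⟩
  have hσ0 : (σ : X.kap P.η) ≠ 0 := by
    intro hcon
    have h1 : resS hX P.η S' 1 ⟨1, h1s⟩ = 0 := by
      rw [← hσ]
      exact Subtype.ext hcon
    rw [resS_zero] at h1
    apply h1
    rw [pow_one, one_mul]
    exact hu
  have hσx : ¬ Un ((subM hX P.η).O ⟨x, hx⟩) ((σ : X.kap P.η) * (resD hX P.η S').eq ⟨x, hx⟩ ^ 1) := by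
    intro hcon
    rw [hσ] at hcon
    have h1 : x ∈ nz S' 1 (1 : K) := (nz_res hX P.η S' 1 ⟨1, h1s⟩ ⟨x, hx⟩).1 hcon
    have h2 : Un (X.O x) ((1 : K) * S'.eq x ^ 1) := h1
    rw [pow_one, one_mul] at h2
    exact hS'.nun x hx' (un_mono (hX.spec _ _ hx') h2)
  -- equal dimensions
  obtain ⟨n1, e1⟩ := res_ev h hr hA P hS 1
  obtain ⟨n2, e2⟩ := res_ev h hr hA P hS S'
  obtain ⟨n3, e3⟩ := un_all hX A S' {x} hA
  obtain ⟨n, hn⟩ : ∃ n, n = n1 + n2 + n3 := ⟨_, rfl⟩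
  have hdim : h0 (resD hX P.η (S' * A ^ n)) 1 = h0 (resD hX P.η (A ^ n)) 1 := by
    have h1 := e1 n (by omega)
    have h2 := e2 n (by omega)
    rw [one_mul] at h1
    have h4 : chS T l S (S' * A ^ n) = chS T l S (A ^ n) := by
      have e0 : T S S' A = 0 := by
        rw [ht.s23, ht.s12]
        exact h0' A
      unfold chS
      simp only [ht.add, ht.add2, ht.pow, ht.pow2]
      have f1 : T A S' S = 0 := by rw [ht.s23]; exact h0' A
      have f2 : T S' A S = 0 := by rw [ht.s12]; exact f1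
      have f3 : T S' S' S = 0 := by rw [ht.s23]; exact h0' S'
      have f4 : T S' S S = 0 := by rw [ht.s12, ht.s23]; exact h0' S
      rw [f1, f2, f3, f4]
      ring
    rw [← h2, ← h1] at h4
    exact_mod_cast h4
  obtain ⟨s, hs, hsx⟩ := e3 n (by omega)
  have hsx' := hsx x (Finset.mem_singleton_self x)
  rw [mul_comm (A ^ n) S'] at hs hsx'
  have hmem : ∀ f : secL (resD hX P.η (A ^ n)) 1, (σ : X.kap P.η) * f ∈ secL (resD hX P.η (S' * A ^ n)) 1 := by
    intro f y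
    have h2 := ((subM hX P.η).O y).mul_mem (σ.2 y) (f.2 y)
    have e : (σ : X.kap P.η) * f * (resD hX P.η (S' * A ^ n)).eq y ^ 1 =
        (σ : X.kap P.η) * (resD hX P.η S').eq y ^ 1 * ((f : X.kap P.η) * (resD hX P.η (A ^ n)).eq y ^ 1) := by
      rw [map_mul, mul_eq]
      ring
    rw [e]
    exact h2
  let φ : secL (resD hX P.η (A ^ n)) 1 →ₗ[k] secL (resD hX P.η (S' * A ^ n)) 1 :=
    { toFun := fun f => ⟨(σ : X.kap P.η) * f, hmem f⟩
      map_add' := fun f g => Subtype.ext (mul_add _ _ _)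
      map_smul' := fun c f => Subtype.ext (mul_smul_comm _ _ _) }
  have hφ : Function.Injective φ := by
    intro f g hfg
    have h2 : (σ : X.kap P.η) * f = (σ : X.kap P.η) * g :=
      congrArg (fun t : secL (resD hX P.η (S' * A ^ n)) 1 => (t : X.kap P.η)) hfg
    exact Subtype.ext (mul_left_cancel₀ hσ0 h2)
  have hf1 := fin_res h hA P.η (resD hX P.η (A ^ n))
  have hf2 := fin_res h hA P.η (resD hX P.η (S' * A ^ n))
  have hsurj : Function.Surjective φ :=
    (LinearMap.injective_iff_surjective_of_finrank_eq_finrank hdim.symm).1 hφ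
  obtain ⟨f, hf⟩ := hsurj (resS hX P.η (S' * A ^ n) 1 ⟨s, hs⟩)
  have h5 := (nz_res hX P.η (S' * A ^ n) 1 ⟨s, hs⟩ ⟨x, hx⟩).2 hsx'
  rw [← hf] at h5
  have h6 : Un ((subM hX P.η).O ⟨x, hx⟩)
      (((σ : X.kap P.η) * f) * (resD hX P.η (S' * A ^ n)).eq ⟨x, hx⟩ ^ 1) := h5
  have e : (σ : X.kap P.η) * f * (resD hX P.η (S' * A ^ n)).eq ⟨x, hx⟩ ^ 1 =
      (σ : X.kap P.η) * (resD hX P.η S').eq ⟨x, hx⟩ ^ 1 *
        ((f : X.kap P.η) * (resD hX P.η (A ^ n)).eq ⟨x, hx⟩ ^ 1) := by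
    rw [map_mul, mul_eq]
    ring
  rw [e, un_mul_iff (σ.2 ⟨x, hx⟩) (f.2 ⟨x, hx⟩)] at h6
  exact hσx h6.1

end Pool.Agent.H41.TQ
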