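import Pool.Agent.H39.TQ.Fam
import Pool.Agent.H24.VP.Nef
import Pool.Agent.H24.VP.Two
import Pool.Agent.H54.RV.B10

/-!
# [H41 TQ FNf] THEOREM Q: the family gives a nef class

`F 0, F 1, ..` infinitely many pairwise disjoint, numerically equal prime divisors: a multiple of the class of `F 0` is nef and effective.

PROOF.  Among `ρ + 1` of them there is a relation `∏ F i ^ x i ∈ NumZ`, not all `x i = 0`.  `U := ∏ F i ^ (x i)⁺`, `V := ∏ F i ^ (x i)⁻`:
effective, without common points, `U * V⁻¹ ∈ NumZ`, `T(U,.,.) = r T(F 0,.,.)`, `r = ∑ (x i)⁺ ≥ 1`.  `A` ample: `A * U` is ample: a point `x` outside of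
`U`: sections of multiples of `A` (`amp_off`); a point `x` of `U` is outside of `V`: sections of multiples of `A * U * V⁻¹`.
-/

set_option autoImplicit false

namespace Pool.Agent.H41.TQ

open Pool.Agent.H54.RV Pool.Agent.H83.TU Pool.Agent.H83.TK Pool.Agent.H24.TK Pool.Agent.H24.VP Pool.Agent.H39.TQ

variable {k K : Type} [Field k] [Field K] [Algebra k K] {X : Mod k K}
  {T : Cart X → Cart X → Cart X → ℝ} {l : Cart X → ℝ} {c : ℝ}

private theorem eff_one : Effective (1 : Cart X) := fun x => by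
  rw [one_eq]
  exact (X.O x).one_mem

private theorem eff_mul {A B : Cart X} (hA : Effective A) (hB : Effective B) : Effective (A * B) :=
  fun x => by
    rw [mul_eq]
    exact (X.O x).mul_mem (hA x) (hB x)

private theorem eff_pow {A : Cart X} (hA : Effective A) (n : ℕ) : Effective (A ^ n) := fun x => by
  rw [pow_eq]
  exact (X.O x).pow_mem (hA x) n

private theorem eff_prod {ι : Type} (s : Finset ι) (f : ι → Cart X) (hf : ∀ i ∈ s, Effective (f i)) :
    Effective (∏ i ∈ s, f i) := by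
  classical
  induction s using Finset.induction_on with
  | empty => exact eff_one
  | insert a s ha ih =>
    rw [Finset.prod_insert ha]
    exact eff_mul (hf a (Finset.mem_insert_self _ _)) (ih fun i hi => hf i (Finset.mem_insert_of_mem hi))

private theorem un_prod {ι : Type} (s : Finset ι) (f : ι → Cart X) (y : X.P)
    (hf : ∀ i ∈ s, Un (X.O y) ((f i).eq y)) : Un (X.O y) ((∏ i ∈ s, f i).eq y) := by
  classical
  induction s using Finset.induction_on with
  | empty => exact un_one _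
  | insert a s ha ih =>
    rw [Finset.prod_insert ha, mul_eq]
    exact un_mul (hf a (Finset.mem_insert_self _ _)) (ih fun i hi => hf i (Finset.mem_insert_of_mem hi))

/-- the points outside of an effective divisor -/
theorem amp_off (hX : IsVar X) (A U : Cart X) (hA : Ample A) (hU : Effective U) (W : Set X.P) (hW : IsOpen W)
    (x : X.P) (hx : x ∈ W) :
    (∀ y ∈ W, Un (X.O y) (U.eq y)) →
    ∃ n : ℕ, 1 ≤ n ∧ ∃ s : K, Sec (A * U) n s ∧ x ∈ nz (A * U) n s ∧ X.aff (nz (A * U) n s) := by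
  intro hWU
  obtain ⟨n, hn, s, hs, hxs, haff⟩ := hA x
  obtain ⟨a, ha1, ha2, ha3⟩ := hX.bas _ W x haff hW hxs hx
  obtain ⟨N, hN⟩ := ext_sec hX A 1 n s a hs (fun y hy => by
    rw [one_eq, mul_one]
    exact ha1 y hy)
  obtain ⟨r, hr⟩ : ∃ r, r = s ^ (N + 1) * a := ⟨_, rfl⟩
  have hr1 : ∀ y, r * (A.eq y ^ n) ^ (N + 1) ∈ X.O y := by
    intro y
    have h1 := hN (N + 1) (by omega) y
    rw [one_eq, mul_one] at h1
    rw [hr]
    exact h1
  have heq : ∀ y, r * (A * U).eq y ^ (n * (N + 1)) = r * (A.eq y ^ n) ^ (N + 1) * U.eq y ^ (n * (N + 1)) := by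
    intro y
    rw [mul_eq, mul_pow, ← pow_mul, mul_assoc]
  have hsec : Sec (A * U) (n * (N + 1)) r := by
    intro y
    rw [heq]
    exact (X.O y).mul_mem (hr1 y) ((X.O y).pow_mem (hU y) _)
  have hnz : nz (A * U) (n * (N + 1)) r = {y | y ∈ nz A n s ∧ Un (X.O y) a} := by
    ext y
    show Un (X.O y) (r * (A * U).eq y ^ (n * (N + 1))) ↔ _
    rw [heq, un_mul_iff (hr1 y) ((X.O y).pow_mem (hU y) _)]
    have e1 : r * (A.eq y ^ n) ^ (N + 1) = (s * A.eq y ^ n) * (s ^ N * a * ((A.eq y ^ n) ^ N * 1)) := by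
      rw [hr]
      ring
    have e2 : r * (A.eq y ^ n) ^ (N + 1) = (s * A.eq y ^ n) ^ (N + 1) * a := by
      rw [hr]
      ring
    constructor
    · rintro ⟨h1, -⟩
      have h2 : y ∈ nz A n s := by
        have h3 := hN N le_rfl y
        rw [one_eq] at h3
        rw [e1, un_mul_iff (hs y) h3] at h1
        exact h1.1
      refine ⟨h2, ?_⟩
      rw [e2, un_mul_iff ((X.O y).pow_mem (hs y) _) (ha1 y h2)] at h1
      exact h1.2
    · rintro ⟨h1, h2⟩
      refine ⟨?_, un_pow (hWU y (ha3 y h1 h2)) _⟩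
      rw [e2]
      exact un_mul (un_pow h1 _) h2
  refine ⟨n * (N + 1), Nat.mul_pos hn (Nat.succ_pos _), r, hsec, ?_, ?_⟩
  · rw [hnz]
    exact ⟨hxs, ha2⟩
  · rw [hnz]
    exact hX.basic _ a haff ha1

theorem fam_nef [CharZero k] [T0Space X.P] (h : Hyp X) (hr : RR T l c) {ρ : ℕ}
    (ν : Cart X →* Multiplicative (Fin ρ → ℤ)) (hν : ∀ D, ν D = 1 → NumZ D) {F : ℕ → Cart X} (hF : DFam T F) :
    ∃ (r : ℕ) (N : Cart X), 1 ≤ r ∧ Effective N ∧ Nf N ∧ ∀ U V, T N U V = r * T (F 0) U V := by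
  classical
  obtain ⟨⟨η, hη, hdis⟩, hnum, -⟩ := hF
  have hdep : ∃ x : Fin (ρ + 1) → ℤ, ∑ i, x i • (Multiplicative.toAdd (ν (F i))) = 0 ∧ ∃ i, x i ≠ 0 := by
    rw [← Fintype.not_linearIndependent_iff]
    intro hli
    have h1 := hli.fintype_card_le_finrank
    rw [Module.finrank_fintype_fun_eq_card, Fintype.card_fin, Fintype.card_fin] at h1
    omega
  obtain ⟨x, hx, i₀, hi₀⟩ := hdep
  obtain ⟨U, hU⟩ : ∃ U, U = ∏ i, F (i : Fin (ρ + 1)) ^ (x i).toNat := ⟨_, rfl⟩
  obtain ⟨V, hV⟩ : ∃ V, V = ∏ i, F (i : Fin (ρ + 1)) ^ (-x i).toNat := ⟨_, rfl⟩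
  have hνUV : ν (U * V⁻¹) = 1 := by
    apply Multiplicative.toAdd.injective
    rw [toAdd_one, map_mul, map_inv, toAdd_mul, toAdd_inv, hU, hV, map_prod ν, map_prod ν, toAdd_prod,
      toAdd_prod, ← Finset.sum_neg_distrib, ← Finset.sum_add_distrib, ← hx]
    refine Finset.sum_congr rfl fun i _ => ?_
    rw [map_pow ν, map_pow ν, toAdd_pow, toAdd_pow, ← natCast_zsmul, ← natCast_zsmul, ← sub_eq_add_neg,
      ← sub_smul, Int.toNat_sub_toNat_neg]
  have hZ := hν _ hνUV
  have hsum : ∀ (m : Fin (ρ + 1) → ℕ) (G G' : Cart X), T (∏ i, F (i : Fin (ρ + 1)) ^ m i) G G' =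
      ((∑ i, m i : ℕ) : ℝ) * T (F 0) G G' := by
    intro m G G'
    rw [hr.tri.prod, Nat.cast_sum, Finset.sum_mul]
    refine Finset.sum_congr rfl fun i _ => ?_
    rw [hr.tri.pow, hnum]
  have hEU : Effective U := by
    rw [hU]
    exact eff_prod _ _ fun i _ => eff_pow (hη i).2.eff _
  have hEV : Effective V := by
    rw [hV]
    exact eff_prod _ _ fun i _ => eff_pow (hη i).2.eff _
  have hr1 : 1 ≤ ∑ i, (x i).toNat := by
    obtain ⟨A, hA⟩ := h.amp
    obtain ⟨P, hP⟩ := (hη 0).1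
    have h1 := pos_prm h hr hA hA P (by rw [hP]; exact (hη 0).2)
    have h2 : T (F 0) A A = T A A (F 0) := by rw [hr.tri.s12, hr.tri.s23]
    have h3 := numz_T h hr hZ A A
    rw [hr.tri.add, hr.tri.inv, hU, hV, hsum, hsum, h2] at h3
    have h4 : ((∑ i, (x i).toNat : ℕ) : ℝ) = ((∑ i, (-x i).toNat : ℕ) : ℝ) := by
      have h5 : (((∑ i, (x i).toNat : ℕ) : ℝ) - ((∑ i, (-x i).toNat : ℕ) : ℝ)) * T A A (F 0) = 0 := by
        linarith
      rcases mul_eq_zero.1 h5 with h6 | h6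
      · linarith
      · exact absurd h6 h1.ne'
    have h5 : ∑ i, (x i).toNat = ∑ i, (-x i).toNat := by exact_mod_cast h4
    rcases lt_or_gt_of_ne hi₀ with h6 | h6
    · rw [h5]
      exact le_trans (by omega) (Finset.single_le_sum (f := fun i => (-x i).toNat) (fun _ _ => Nat.zero_le _)
        (Finset.mem_univ i₀))
    · exact le_trans (by omega) (Finset.single_le_sum (f := fun i => (x i).toNat) (fun _ _ => Nat.zero_le _)
        (Finset.mem_univ i₀))
  have hop : ∀ p : Fin (ρ + 1) → Prop, IsOpen {y : X.P | ∀ i, p i → ¬ η i ⤳ y} := by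
    intro p
    have h1 : {y : X.P | ∀ i, p i → ¬ η i ⤳ y} = ⋂ i : Fin (ρ + 1), {y : X.P | p i → ¬ η i ⤳ y} := by
      ext y
      simp only [Set.mem_ofPred_eq, Set.mem_iInter]
    rw [h1]
    refine isOpen_iInter_of_finite fun i => ?_
    by_cases hp : p i
    · have h2 : {y : X.P | p i → ¬ η i ⤳ y} = (closure {η (i : ℕ)})ᶜ := by
        ext y
        rw [Set.mem_compl_iff, ← specializes_iff_mem_closure]
        exact ⟨fun h3 => h3 hp, fun h3 _ => h3⟩
      rw [h2]
      exact isClosed_closure.isOpen_compl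
    · have h2 : {y : X.P | p i → ¬ η i ⤳ y} = Set.univ := by
        ext y
        exact ⟨fun _ => trivial, fun _ h3 => absurd h3 hp⟩
      rw [h2]
      exact isOpen_univ
  have hun : ∀ (m : Fin (ρ + 1) → ℕ) (y : X.P), (∀ i, 0 < m i → ¬ η i ⤳ y) →
      Un (X.O y) ((∏ i, F (i : Fin (ρ + 1)) ^ m i).eq y) := by
    intro m y hy
    refine un_prod _ _ y fun i _ => ?_
    rw [pow_eq]
    rcases Nat.eq_zero_or_pos (m i) with h1 | h1
    · rw [h1, pow_zero]
      exact un_one _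
    · exact un_pow ((hη i).2.un y (hy i h1)) _
  refine ⟨∑ i, (x i).toNat, U, hr1, hEU, fun A hA y => ?_, fun G G' => by rw [hU, hsum]⟩
  by_cases hy : ∀ i : Fin (ρ + 1), 0 < (x i).toNat → ¬ η i ⤳ y
  · refine amp_off h.var A U hA hEU _ (hop fun i => 0 < (x i).toNat) y hy fun z hz => ?_
    rw [hU]
    exact hun _ z hz
  · push Not at hy
    obtain ⟨i, hi, hiy⟩ := hy
    have h1 : A * U = A * (U * V⁻¹) * V := by
      rw [mul_assoc, inv_mul_cancel_right]
    rw [h1]
    refine amp_off h.var _ V (hZ A hA).1 hEV _ (hop fun i => 0 < (-x i).toNat) y (fun j hj hjy => ?_) fun z hz => ?_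
    · refine hdis i j ?_ y ⟨hiy, hjy⟩
      rintro hij
      have h2 : i = j := Fin.ext hij
      subst h2
      omega
    · rw [hV]
      exact hun _ z hz

end Pool.Agent.H41.TQ
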