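import Pool.Agent.H24.VP.Def
import Pool.Agent.H24.VP.Alg
import Pool.Agent.H20.TK.Vol

/-!
# [H41 TQ Pol] THEOREM Q, chapter (7c): leading coefficients

`RR T l c`: `h0 (W * A ^ n) 1 = T(W A^n, W A^n, W A^n) / 6 + l (W A^n) + c` for `A` ample and large `n`.

* `pol_vol`: if `h0 D n ≤ (2 a n + 3).choose 3` for large `n` then `T D D D ≤ 8 a ^ 3`.
* `pol_prm`: if `h0 D n ≤ h0 (D ^ n * E⁻¹) 1 + (a n + 1).choose 2` for large `n` then `T D D E ≤ a ^ 2`.

PROOF.  `h0 D n = h0 (D ^ n) 1` (`h0_n`, `H20/TK/Vol.lean`).  `hr.ev 1 D`, `hr.ev E⁻¹ D` (commute the factors).  From `Tri`: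
`T (D ^ n) B C = n * T D B C` (induction; `T 1 B C = 0` from `T (1 * 1) B C = 2 T 1 B C`), `T E⁻¹ B C = - T E B C`, symmetric in all
variables; `l (D ^ n) = n l D`, `l E⁻¹ = - l E`.  So `h0 D n = n ^ 3 T D D D / 6 + n l D + c` and
`h0 (D ^ n E⁻¹) 1 = (n ^ 3 T D D D - 3 n ^ 2 T D D E + 3 n T D E E - T E E E) / 6 + n l D - l E + c` for large `n`.
`(m + 3).choose 3 = (m + 3)(m + 2)(m + 1) / 6` with `m = 2 a n` and `(m + 1).choose 2 = (m + 1) m / 2` with `m = a n` in `ℝ`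
(`Nat.cast_choose`-type lemmas, or as in `arith_bound` of `H24/TU/Main.lean`: `Nat.choose_two_right`).  So for large `n`
`n ^ 3 T D D D / 6 + n l D + c ≤ (2 a n + 3)(2 a n + 2)(2 a n + 1) / 6`: divide by `n ^ 3` and let `n → ∞` (or: if
`T D D D = 8 a ^ 3 + ε`, `ε > 0`, then `ε n ^ 3 ≤ C n ^ 2` for all large `n`, false for `n > C / ε`).  In the same way
`n ^ 2 T D D E / 2 - n T D E E / 2 + .. ≤ (a n + 1) a n / 2`, so `T D D E ≤ a ^ 2`.
-/

set_option autoImplicit false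

namespace Pool.Agent.H41.TQ

open Pool.Agent.H54.RV Pool.Agent.H83.TU Pool.Agent.H24.VP

variable {k K : Type} [Field k] [Field K] [Algebra k K] {X : Mod k K} {T : Cart X → Cart X → Cart X → ℝ}
  {l : Cart X → ℝ} {c : ℝ}

private theorem pol_arch {x C : ℝ} {N : ℕ} (h : ∀ n : ℕ, N ≤ n → 1 ≤ n → x * n ≤ C) : x ≤ 0 := by
  by_contra hx
  rw [not_le] at hx
  obtain ⟨M, hM⟩ := exists_nat_gt (C / x)
  have h1 := h (max (max N 1) M) ((le_max_left _ _).trans (le_max_left _ _))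
    ((le_max_right _ _).trans (le_max_left _ _))
  have h2 : (M : ℝ) ≤ ((max (max N 1) M : ℕ) : ℝ) := by exact_mod_cast le_max_right _ _
  rw [div_lt_iff₀ hx] at hM
  nlinarith

private theorem pol_ch3 (m : ℕ) : (((m + 3).choose 3 : ℕ) : ℝ) = (m + 3) * (m + 2) * (m + 1) / 6 := by
  have h1 := Nat.add_one_mul_choose_eq (m + 2) 2
  have h2 := Nat.add_one_mul_choose_eq (m + 1) 1
  rw [Nat.choose_one_right] at h2
  have h3 : ((m : ℝ) + 2 + 1) * ((m + 2).choose 2 : ℕ) = ((m + 3).choose 3 : ℕ) * (2 + 1) := by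
    exact_mod_cast h1
  have h4 : ((m : ℝ) + 1 + 1) * (m + 1) = ((m + 2).choose 2 : ℕ) * (1 + 1) := by
    exact_mod_cast h2
  have h5 : (((m + 2).choose 2 : ℕ) : ℝ) = (m + 2) * (m + 1) / 2 := by linarith
  rw [h5] at h3
  linarith

private theorem pol_ch2 (m : ℕ) : (((m + 1).choose 2 : ℕ) : ℝ) = (m + 1) * m / 2 := by
  have h2 := Nat.add_one_mul_choose_eq m 1
  rw [Nat.choose_one_right] at h2
  have h4 : ((m : ℝ) + 1) * m = ((m + 1).choose 2 : ℕ) * (1 + 1) := by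
    exact_mod_cast h2
  linarith

private theorem pol_l1 (hr : RR T l c) : l 1 = 0 := by
  have h := hr.ladd 1 1
  rw [mul_one] at h
  linarith

private theorem pol_lpow (hr : RR T l c) (D : Cart X) (n : ℕ) : l (D ^ n) = n * l D := by
  induction n with
  | zero => rw [pow_zero, pol_l1 hr, Nat.cast_zero, zero_mul]
  | succ n ih =>
    rw [pow_succ, hr.ladd, ih]
    push_cast
    ring

private theorem pol_linv (hr : RR T l c) (E : Cart X) : l E⁻¹ = - l E := by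
  have h := hr.ladd E⁻¹ E
  rw [inv_mul_cancel, pol_l1 hr] at h
  linarith

private theorem pol_h0 (hr : RR T l c) (D : Cart X) (hD : Ample D) : ∃ n₁ : ℕ, ∀ n ≥ n₁,
    (h0 D n : ℝ) = (n : ℝ) ^ 3 * T D D D / 6 + n * l D + c := by
  obtain ⟨n₁, hn⟩ := hr.ev 1 D hD
  refine ⟨n₁, fun n hn' => ?_⟩
  have h1 := hn n hn'
  rw [one_mul] at h1
  rw [Pool.Agent.H20.TK.h0_n, h1]
  unfold chi
  rw [hr.tri.pow, hr.tri.pow2, hr.tri.pow3, pol_lpow hr]
  ring

theorem pol_vol (hr : RR T l c) (D : Cart X) (hD : Ample D) (a n₀ : ℕ)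
    (hb : ∀ n ≥ n₀, h0 D n ≤ (2 * (a * n) + 3).choose 3) : T D D D ≤ 8 * (a : ℝ) ^ 3 := by
  obtain ⟨n₁, hn⟩ := pol_h0 hr D hD
  have h1 : T D D D - 8 * (a : ℝ) ^ 3 ≤ 0 := by
    refine pol_arch (N := max n₀ n₁)
      (C := 24 * (a : ℝ) ^ 2 + 22 * a + 6 + 6 * |l D| + 6 * |c|) fun n h2 h3 => ?_
    have h4 := hb n ((le_max_left _ _).trans h2)
    have h5 : (h0 D n : ℝ) ≤ (((2 * (a * n) + 3).choose 3 : ℕ) : ℝ) := by exact_mod_cast h4
    rw [hn n ((le_max_right _ _).trans h2), pol_ch3] at h5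
    push_cast at h5
    have hn1 : (1 : ℝ) ≤ n := by exact_mod_cast h3
    have hn0 : (0 : ℝ) < n := by linarith
    have hn2 : (n : ℝ) ≤ (n : ℝ) ^ 2 := by nlinarith
    have hn3 : (1 : ℝ) ≤ (n : ℝ) ^ 2 := by nlinarith
    have ha : (0 : ℝ) ≤ a := Nat.cast_nonneg _
    have e1 : (T D D D - 8 * (a : ℝ) ^ 3) * (n : ℝ) ^ 3 ≤
        24 * (a : ℝ) ^ 2 * (n : ℝ) ^ 2 + 22 * a * n + 6 - 6 * n * l D - 6 * c := by
      nlinarith [h5]
    have e2 : - (6 * n * l D) ≤ 6 * |l D| * (n : ℝ) ^ 2 := by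
      have h6 := neg_abs_le (l D)
      have h7 := abs_nonneg (l D)
      nlinarith
    have e3 : - (6 * c) ≤ 6 * |c| * (n : ℝ) ^ 2 := by
      have h6 := neg_abs_le c
      have h7 := abs_nonneg c
      nlinarith
    have e4 : 22 * (a : ℝ) * n ≤ 22 * a * (n : ℝ) ^ 2 := by
      exact mul_le_mul_of_nonneg_left hn2 (by positivity)
    have e5 : (T D D D - 8 * (a : ℝ) ^ 3) * (n : ℝ) ^ 3 ≤
        (24 * (a : ℝ) ^ 2 + 22 * a + 6 + 6 * |l D| + 6 * |c|) * (n : ℝ) ^ 2 := by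
      nlinarith
    have e6 : ((T D D D - 8 * (a : ℝ) ^ 3) * n) * (n : ℝ) ^ 2 ≤
        (24 * (a : ℝ) ^ 2 + 22 * a + 6 + 6 * |l D| + 6 * |c|) * (n : ℝ) ^ 2 := by
      calc _ = (T D D D - 8 * (a : ℝ) ^ 3) * (n : ℝ) ^ 3 := by ring
        _ ≤ _ := e5
    exact le_of_mul_le_mul_right e6 (by positivity)
  linarith

theorem pol_prm (hr : RR T l c) (D E : Cart X) (hD : Ample D) (a n₀ : ℕ)
    (hb : ∀ n ≥ n₀, h0 D n ≤ h0 (D ^ n * E⁻¹) 1 + (a * n + 1).choose 2) : T D D E ≤ (a : ℝ) ^ 2 := by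
  obtain ⟨n₁, hn⟩ := pol_h0 hr D hD
  obtain ⟨n₂, hm⟩ := hr.ev E⁻¹ D hD
  have h1 : T D D E - (a : ℝ) ^ 2 ≤ 0 := by
    refine pol_arch (N := max n₀ (max n₁ n₂))
      (C := |T D E E| + |T E E E| + 2 * |l E| + a) fun n h2 h3 => ?_
    have h4 := hb n ((le_max_left _ _).trans h2)
    have h5 : (h0 D n : ℝ) ≤ (h0 (D ^ n * E⁻¹) 1 : ℝ) + (((a * n + 1).choose 2 : ℕ) : ℝ) := by exact_mod_cast h4
    have h6 := hm n ((le_max_right _ _).trans ((le_max_right _ _).trans h2))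
    rw [mul_comm] at h6
    have e0 : chi T l c (D ^ n * E⁻¹) = ((n : ℝ) ^ 3 * T D D D - 3 * (n : ℝ) ^ 2 * T D D E +
        3 * n * T D E E - T E E E) / 6 + n * l D - l E + c := by
      unfold chi
      rw [hr.ladd, pol_lpow hr, pol_linv hr]
      simp only [hr.tri.add, hr.tri.add2, hr.tri.add3, hr.tri.pow, hr.tri.pow2, hr.tri.pow3, hr.tri.inv,
        hr.tri.inv2, hr.tri.inv3]
      have f1 : T D E D = T D D E := hr.tri.s23 _ _ _
      have f2 : T E D D = T D D E := by rw [hr.tri.s12, f1]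
      have f3 : T E D E = T D E E := hr.tri.s12 _ _ _
      have f4 : T E E D = T D E E := by rw [hr.tri.s23, f3]
      rw [f1, f2, f3, f4]
      ring
    rw [h6, e0, hn n ((le_max_left _ _).trans ((le_max_right _ _).trans h2)), pol_ch2] at h5
    push_cast at h5
    have hn1 : (1 : ℝ) ≤ n := by exact_mod_cast h3
    have hn0 : (0 : ℝ) < n := by linarith
    have e1 : (T D D E - (a : ℝ) ^ 2) * (n : ℝ) ^ 2 ≤ n * T D E E - T E E E / 3 - 2 * l E + a * n := by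
      nlinarith [h5]
    have e2 : n * T D E E ≤ |T D E E| * n := by
      have := le_abs_self (T D E E)
      nlinarith
    have e3 : - (T E E E / 3) ≤ |T E E E| * n := by
      have h7 := neg_abs_le (T E E E)
      have h8 := abs_nonneg (T E E E)
      nlinarith
    have e4 : - (2 * l E) ≤ 2 * |l E| * n := by
      have h7 := neg_abs_le (l E)
      have h8 := abs_nonneg (l E)
      nlinarith
    have e6 : ((T D D E - (a : ℝ) ^ 2) * n) * n ≤
        (|T D E E| + |T E E E| + 2 * |l E| + a) * n := by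
      calc _ = (T D D E - (a : ℝ) ^ 2) * (n : ℝ) ^ 2 := by ring
        _ ≤ _ := by nlinarith
    exact le_of_mul_le_mul_right e6 hn0
  linarith

end Pool.Agent.H41.TQ
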