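import Pool.Agent.H24.TU.Def

/-!
# [H41 TQ ExtS] THEOREM Q, chapter (6): extension of the base field of a graded system

`extS S L`: the `L`-spans of the spaces `S.L n`, `L` a field between `k` and `K`, as a graded system over `L`.

PROOF of the fields: `one_mem`: `Submodule.subset_span S.one_mem`.  `mul_mem`: as `hmulF` in `H39/TU/CB.lean`.  `fin`: as `hfinF` there.
`ne_bot`: `S.L 1` has a nonzero element (`Submodule.exists_mem_ne_zero_of_ne_bot`).  `frac`: from `S.frac`.
-/

set_option autoImplicit false

namespace Pool.Agent.H41.TQ

open Pool.Agent.H24.TU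

universe u

variable {k K : Type u} [Field k] [Field K] [Algebra k K]

theorem ext_mul_mem (S : GSys k K) (L : IntermediateField k K) {m n : ℕ} {a b : K}
    (ha : a ∈ Submodule.span L (S.L m : Set K)) (hb : b ∈ Submodule.span L (S.L n : Set K)) :
    a * b ∈ Submodule.span L (S.L (m + n) : Set K) := by
  induction ha using Submodule.span_induction with
  | mem f hf =>
    induction hb using Submodule.span_induction with
    | mem g hg => exact Submodule.subset_span (S.mul_mem hf hg)
    | zero => rw [mul_zero]; exact Submodule.zero_mem _
    | add y y' _ _ h1 h2 => rw [mul_add]; exact Submodule.add_mem _ h1 h2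
    | smul c y _ h1 => rw [mul_smul_comm]; exact Submodule.smul_mem _ c h1
  | zero => rw [zero_mul]; exact Submodule.zero_mem _
  | add y y' _ _ h1 h2 => rw [add_mul]; exact Submodule.add_mem _ h1 h2
  | smul c y _ h1 => rw [smul_mul_assoc]; exact Submodule.smul_mem _ c h1

theorem ext_fin (S : GSys k K) (L : IntermediateField k K) (n : ℕ) :
    FiniteDimensional L (Submodule.span L (S.L n : Set K)) := by
  have h0 := S.fin n
  obtain ⟨t, ht⟩ := Module.Finite.iff_fg.1 h0
  have h1 : Submodule.span L (S.L n : Set K) = Submodule.span L (t : Set K) := by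
    apply le_antisymm
    · rw [Submodule.span_le]
      intro y hy
      rw [← ht] at hy
      exact Submodule.span_le_restrictScalars k L (t : Set K) hy
    · refine Submodule.span_mono ?_
      intro y hy
      rw [← ht]
      exact Submodule.subset_span hy
  rw [h1]
  exact FiniteDimensional.span_finset L t

/-- the graded system over `L` -/
noncomputable def extS (S : GSys k K) (L : IntermediateField k K) : GSys L K where
  L n := Submodule.span L (S.L n : Set K)
  one_mem := Submodule.subset_span S.one_mem
  mul_mem ha hb := ext_mul_mem S L ha hb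
  fin n := ext_fin S L n
  ne_bot h := by
    obtain ⟨s, hs, hs0⟩ := Submodule.exists_mem_ne_zero_of_ne_bot S.ne_bot
    have h1 : s ∈ Submodule.span L (S.L 1 : Set K) := Submodule.subset_span hs
    rw [h] at h1
    exact hs0 h1
  frac f := by
    obtain ⟨n, a, ha, s, hs, hs0, h⟩ := S.frac f
    exact ⟨n, a, Submodule.subset_span ha, s, Submodule.subset_span hs, hs0, h⟩

theorem extS_L (S : GSys k K) (L : IntermediateField k K) (n : ℕ) :
    (extS S L).L n = Submodule.span L (S.L n : Set K) := rfl

end Pool.Agent.H41.TQ
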