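import Pool.Agent.H83.TU.PF3

/-!
# [H41 TQ ResK] THEOREM Q, chapter (7): the residues of the elements of `L` are constants

`p` a place of `K` over the algebraically closed field `k`, `L` a field between `k` and `K` with `trdeg_k L = 1` on which `p` is not
trivial (`hL`).  For `ψ ∈ L`, `ψ ∈ p.R` there is `c ∈ k` such that `ψ - c` is `0` or has positive order.

PROOF.  Otherwise `ψ ≠ c` and `p.ord (ψ - c) = 0` for all `c ∈ k` (`ψ - c ∈ p.R`, `ord_nonneg`).  So `ψ` is transcendental over `k` (an
algebraic element is in `k`: `IsAlgClosed.algebraMap_surjective_of_isIntegral` or the minimal polynomial splits and has a root) and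
`p.ord (q(ψ)) = 0` for every polynomial `q ≠ 0` over `k` (`k` is algebraically closed: `q` is a constant times a product of factors
`X - c`, `IsAlgClosed.splits`, `Polynomial.Splits`; or by induction on the degree with `IsAlgClosed.exists_root` and
`Polynomial.dvd_iff_isRoot`; `ord_mul` and `ord` of a nonzero constant is `0`: `p.mem`, `ord_eq_zero`).  So every nonzero element of
`k⟮ψ⟯` has order `0` (quotients of polynomials in `ψ`: `IntermediateField.mem_adjoin_simple_iff` or `mem_adjoin_range_iff`; `ord_inv`),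
and `k⟮ψ⟯ ⊆ p.R` (`ord_nonneg`): `p` is a place `p'` of `K` over `k⟮ψ⟯` (same `R`; `Place` of `H54/RV`, fields `R`, `mem`, `dvr`;
`p'.ord = p.ord`, both are defined by `R`).  The element `f ∈ L` of `hL` is algebraic over `k⟮ψ⟯`: `ψ ∈ L` is transcendental over `k` and
`trdeg_k L = 1`, so `ψ` is a transcendence basis of `L` (`AlgebraicIndependent.isTranscendenceBasis_of_trdeg_le`), then map the
polynomial from `L` to `K`.  `ord_alg` (`H83/TU/PF3.lean`, base field `k⟮ψ⟯`): `p.ord f = 0`, a contradiction.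
-/

set_option autoImplicit false

namespace Pool.Agent.H41.TQ

open Pool.Agent.H54.RV Pool.Agent.H83.TU

private theorem ordc {k K : Type} [Field k] [Field K] [Algebra k K] (p : Place k K) (c : k)
    (hc : c ≠ 0) : algebraMap k K c ≠ 0 ∧ p.ord (algebraMap k K c) = 0 := by
  have h0 : algebraMap k K c ≠ 0 := by simpa using hc
  refine ⟨h0, ?_⟩
  rw [ord_eq_zero p _ h0, ← map_inv₀]
  exact ⟨p.mem c, p.mem c⁻¹⟩

private theorem ordq {k K : Type} [Field k] [IsAlgClosed k] [Field K] [Algebra k K] (p : Place k K)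
    (ψ : K) (h : ∀ c : k, ψ - algebraMap k K c ≠ 0 ∧ p.ord (ψ - algebraMap k K c) = 0)
    (q : Polynomial k) (hq : q ≠ 0) :
    Polynomial.aeval ψ q ≠ 0 ∧ p.ord (Polynomial.aeval ψ q) = 0 := by
  have h1 := (IsAlgClosed.splits q).eq_prod_roots
  have key : ∀ s : Multiset k, (s.map fun a => ψ - algebraMap k K a).prod ≠ 0 ∧
      p.ord (s.map fun a => ψ - algebraMap k K a).prod = 0 := by
    intro s
    induction s using Multiset.induction_on with
    | empty =>
      rw [Multiset.map_zero, Multiset.prod_zero]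
      exact ⟨one_ne_zero, ord_one p⟩
    | cons a s ih =>
      rw [Multiset.map_cons, Multiset.prod_cons]
      refine ⟨mul_ne_zero (h a).1 ih.1, ?_⟩
      rw [ord_mul p _ _ (h a).1 ih.1, (h a).2, ih.2, add_zero]
  have h2 : Polynomial.aeval ψ q = algebraMap k K q.leadingCoeff *
      (q.roots.map fun a => ψ - algebraMap k K a).prod := by
    conv_lhs => rw [h1]
    rw [map_mul, Polynomial.aeval_C, map_multiset_prod, Multiset.map_map]
    congr 2
    refine Multiset.map_congr rfl fun a _ => ?_
    rw [Function.comp_apply, map_sub, Polynomial.aeval_X, Polynomial.aeval_C]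
  have h3 := ordc p q.leadingCoeff (Polynomial.leadingCoeff_ne_zero.2 hq)
  have h4 := key q.roots
  rw [h2]
  refine ⟨mul_ne_zero h3.1 h4.1, ?_⟩
  rw [ord_mul p _ _ h3.1 h4.1, h3.2, h4.2, add_zero]

private theorem algf {k K : Type} [Field k] [Field K] [Algebra k K]
    (L : IntermediateField k K) (htr : Algebra.trdeg k L = 1) (ψ : K) (hψ : ψ ∈ L)
    (ht : Transcendental k ψ) (f : K) (hf : f ∈ L) :
    IsAlgebraic (IntermediateField.adjoin k {ψ}) f := by
  have ht' : Transcendental k (⟨ψ, hψ⟩ : L) := by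
    intro h
    apply ht
    have := h.algebraMap (A := K)
    exact this
  have hx : AlgebraicIndependent k (fun _ : Unit => (⟨ψ, hψ⟩ : L)) :=
    algebraicIndependent_unique_type_iff.2 ht'
  have hb : IsTranscendenceBasis k (fun _ : Unit => (⟨ψ, hψ⟩ : L)) :=
    hx.isTranscendenceBasis_of_trdeg_le_of_finite (by rw [htr]; simp)
  have halg := hb.isAlgebraic
  rw [Set.range_const] at halg
  have h1 := halg.isAlgebraic (⟨f, hf⟩ : L)
  have hmem : ∀ a : L, a ∈ Algebra.adjoin k {(⟨ψ, hψ⟩ : L)} →
      (a : K) ∈ IntermediateField.adjoin k {ψ} := by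
    intro a ha
    induction ha using Algebra.adjoin_induction with
    | mem x hx =>
      rw [Set.mem_singleton_iff] at hx
      rw [hx]
      exact IntermediateField.mem_adjoin_simple_self k ψ
    | algebraMap r => exact (IntermediateField.adjoin k {ψ}).algebraMap_mem r
    | add x y _ _ hx hy => exact add_mem hx hy
    | mul x y _ _ hx hy => exact mul_mem hx hy
  let φ : Algebra.adjoin k {(⟨ψ, hψ⟩ : L)} →+* IntermediateField.adjoin k {ψ} :=
    { toFun := fun x => ⟨(x.1 : K), hmem x.1 x.2⟩
      map_one' := rfl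
      map_mul' := fun _ _ => rfl
      map_zero' := rfl
      map_add' := fun _ _ => rfl }
  have hφ : Function.Injective φ := by
    intro x y hxy
    have h2 : (x.1 : K) = y.1 := congrArg (fun z : IntermediateField.adjoin k {ψ} => (z : K)) hxy
    exact Subtype.ext (Subtype.ext h2)
  exact h1.ringHom_of_comp_eq φ (algebraMap L K) hφ rfl

theorem res_const {k K : Type} [Field k] [IsAlgClosed k] [Field K] [Algebra k K] (p : Place k K)
    (L : IntermediateField k K) (htr : Algebra.trdeg k L = 1) (hL : ∃ f ∈ L, f ≠ 0 ∧ p.ord f ≠ 0) (ψ : K)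
    (hψ : ψ ∈ L) (hR : ψ ∈ p.R) : ∃ c : k, ψ - algebraMap k K c = 0 ∨ 0 < p.ord (ψ - algebraMap k K c) := by
  by_contra hcon
  push Not at hcon
  have h : ∀ c : k, ψ - algebraMap k K c ≠ 0 ∧ p.ord (ψ - algebraMap k K c) = 0 := by
    intro c
    refine ⟨(hcon c).1, le_antisymm (hcon c).2 ?_⟩
    exact (ord_nonneg p _ (hcon c).1).2 (sub_mem hR (p.mem c))
  have ht : Transcendental k ψ := by
    rintro ⟨q, hq, hq0⟩
    exact (ordq p ψ h q hq).1 hq0
  have hord : ∀ x ∈ IntermediateField.adjoin k {ψ}, x ≠ 0 → p.ord x = 0 := by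
    intro x hx hx0
    obtain ⟨r, s, hrs⟩ := (IntermediateField.mem_adjoin_simple_iff k x).1 hx
    have hr : r ≠ 0 := by
      rintro rfl
      rw [map_zero, zero_div] at hrs
      exact hx0 hrs
    have hs : s ≠ 0 := by
      rintro rfl
      rw [map_zero, div_zero] at hrs
      exact hx0 hrs
    obtain ⟨h1, h2⟩ := ordq p ψ h r hr
    obtain ⟨h3, h4⟩ := ordq p ψ h s hs
    rw [hrs, div_eq_mul_inv, ord_mul p _ _ h1 (inv_ne_zero h3), ord_inv, h2, h4, neg_zero, add_zero]
  obtain ⟨f, hfL, hf0, hf⟩ := hL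
  let p' : Place (IntermediateField.adjoin k {ψ}) K :=
    { R := p.R
      mem := by
        rintro ⟨c, hc⟩
        by_cases hc0 : c = 0
        · subst hc0
          exact p.R.zero_mem
        · exact (ord_nonneg p c hc0).1 (hord c hc hc0).ge
      dvr := p.dvr }
  have h5 := ord_alg (k := IntermediateField.adjoin k {ψ}) f hf0 (algf L htr ψ hψ ht f hfL) p'
  exact hf h5

end Pool.Agent.H41.TQ
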