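import Pool.Agent.H83.TK.SubE
import Pool.Agent.H41.TQ.ResK
import Pool.Agent.H41.TQ.ExtS

/-!
# [H41 TQ ResL] THEOREM Q, chapter (7a): the sections on a prime divisor over a place of `L`

`P` a prime divisor of `X` whose valuation is not trivial on `L`, `trdeg_k L = 1`, `C` its Cartier divisor:
`h0(nD) ≤ h0(nD - C) + dim_L (L L(nD))`.

PROOF.  `V = secL D n`, `W = secL (D ^ n * C⁻¹) 1 ≤ V` (`ex_mem` of `H83/TK/SubE.lean`): `s ∈ W` iff `s ∈ V` and `s * D.eq P.η ^ n` is not a
unit of `O η`, that is (as it is in `O η`, `P.mem`, `ord_nonneg`, `ord_eq_zero`) it is `0` or has positive order.  Let `r = dim V - dim W` and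
`s_1, .., s_r ∈ V` with independent classes modulo `W` (a basis of the quotient `V ⧸ W.comap V.subtype`, lifted;
`Submodule.finrank_quotient_add_finrank`).  CLAIM: the `s_i` are linearly independent over `L`.  Then `r ≤ finrank_L (span_L V)`
(`ext_fin` of `H41/TQ/ExtS.lean` for the finiteness, there for `S.L n`: repeat the argument for `secL D n`; or
`LinearIndependent.fintype_card_le_finrank`), done.  Proof of the claim: let `∑ φ_i s_i = 0`, `φ_i ∈ L`, not all `0`; choose `i₀` with
`φ_(i₀) ≠ 0` and `P.p.ord φ_(i₀)` minimal among the nonzero ones (`Finset.exists_min_image`).  `ψ_i = φ_i / φ_(i₀) ∈ L`, it is `0` or has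
order `≥ 0`, so `ψ_i ∈ P.p.R`.  `res_const` gives `c_i ∈ k` with `ψ_i - c_i` zero or of positive order.  `ψ_(i₀) = 1`, so `c_(i₀) = 1` (a nonzero
constant has order `0`), in particular `c_(i₀) ≠ 0`.  `t := ∑ c_i • s_i ∈ V`, and `t = - ∑ (ψ_i - c_i) s_i` (as `∑ ψ_i s_i = 0`), so
`t * D.eq P.η ^ n = - ∑ (ψ_i - c_i) * (s_i * D.eq P.η ^ n)` is a sum of elements of the maximal ideal of `P.p.R`
(`ord_add_ge` in `H39/TU/RAM.lean`, or the nonunits of the local ring `P.p.R` form an ideal): zero or of positive order.  So `t ∈ W`, so all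
`c_i = 0` by the choice of the `s_i`, against `c_(i₀) ≠ 0`.
-/

set_option autoImplicit false

namespace Pool.Agent.H41.TQ

open Pool.Agent.H54.RV Pool.Agent.H83.TU Pool.Agent.H83.TK

variable {k K : Type} [Field k] [Field K] [Algebra k K] {X : Mod k K}

private theorem rl_neg (p : Place k K) (a : K) : p.ord (-a) = p.ord a := by
  by_cases ha : a = 0
  · rw [ha, neg_zero]
  · have h1 : p.ord (-1 : K) = 0 := by
      rw [ord_eq_zero p _ (neg_ne_zero.2 one_ne_zero)]
      have h2 : (-1 : K) ∈ p.R := neg_mem p.R.one_mem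
      refine ⟨h2, ?_⟩
      rwa [inv_neg, inv_one]
    rw [neg_eq_neg_one_mul, ord_mul p _ _ (neg_ne_zero.2 one_ne_zero) ha, h1, zero_add]

private theorem rl_max (p : Place k K) (a : K) :
    (a = 0 ∨ 0 < p.ord a) ↔ ∃ h : a ∈ p.R, (⟨a, h⟩ : p.R) ∈ IsLocalRing.maximalIdeal p.R := by
  by_cases ha : a = 0
  · subst ha
    refine ⟨fun _ => ⟨p.R.zero_mem, ?_⟩, fun _ => Or.inl rfl⟩
    exact (IsLocalRing.maximalIdeal p.R).zero_mem
  · constructor
    · rintro (h | h)
      · exact absurd h ha
      · have h1 := (ord_nonneg p a ha).1 h.le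
        exact ⟨h1, (pf2_max p a h1 ha).2 h⟩
    · rintro ⟨h1, h2⟩
      exact Or.inr ((pf2_max p a h1 ha).1 h2)

private theorem rl_sum {ι : Type} (p : Place k K) (s : Finset ι) (f : ι → K)
    (hf : ∀ i ∈ s, f i = 0 ∨ 0 < p.ord (f i)) : ∑ i ∈ s, f i = 0 ∨ 0 < p.ord (∑ i ∈ s, f i) := by
  classical
  induction s using Finset.induction_on with
  | empty => exact Or.inl Finset.sum_empty
  | insert j u hj ih =>
    rw [Finset.sum_insert hj]
    obtain ⟨h1, h2⟩ := (rl_max p _).1 (hf j (Finset.mem_insert_self j u))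
    obtain ⟨h3, h4⟩ := (rl_max p _).1 (ih fun i hi => hf i (Finset.mem_insert_of_mem hi))
    rw [rl_max]
    exact ⟨add_mem h1 h3, (IsLocalRing.maximalIdeal p.R).add_mem h2 h4⟩

private theorem rl_fin (L : IntermediateField k K) (V : Submodule k K) (hV : Module.Finite k V) :
    Module.Finite L (Submodule.span L (V : Set K)) := by
  obtain ⟨t, ht⟩ := Module.Finite.iff_fg.1 hV
  have h1 : Submodule.span L (V : Set K) = Submodule.span L (t : Set K) := by
    apply le_antisymm
    · rw [Submodule.span_le]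
      intro y hy
      rw [← ht] at hy
      exact Submodule.span_le_restrictScalars k L (t : Set K) hy
    · refine Submodule.span_mono ?_
      intro y hy
      rw [← ht]
      exact Submodule.subset_span hy
  rw [h1]
  exact FiniteDimensional.span_finset L t

private theorem rl_indep [IsAlgClosed k] (h : Hyp X) (L : IntermediateField k K)
    (htr : Algebra.trdeg k L = 1) (P : PDiv X) (hL : ∃ f ∈ L, f ≠ 0 ∧ P.p.ord f ≠ 0) (D : Cart X)
    (n r : ℕ) (s : Fin r → secL D n)
    (hs : LinearIndependent k (fun i => resS h.var P.η D n (s i))) :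
    LinearIndependent L (fun i => ((s i : secL D n) : K)) := by
  classical
  rw [Fintype.linearIndependent_iff]
  intro g hg
  by_contra hcon
  push Not at hcon
  obtain ⟨i₁, hi₁⟩ := hcon
  have hT : (Finset.univ.filter (fun i => g i ≠ 0)).Nonempty :=
    ⟨i₁, Finset.mem_filter.2 ⟨Finset.mem_univ _, hi₁⟩⟩
  obtain ⟨i₀, hi₀, hmin⟩ := Finset.exists_min_image _ (fun i => P.p.ord (g i : K)) hT
  have hg₀ : (g i₀ : K) ≠ 0 := by
    intro h0
    exact (Finset.mem_filter.1 hi₀).2 (by exact_mod_cast h0)
  have hψL : ∀ i, (g i : K) / g i₀ ∈ L := fun i => div_mem (g i).2 (g i₀).2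
  have hψR : ∀ i, (g i : K) / g i₀ ∈ P.p.R := by
    intro i
    by_cases hi : g i = 0
    · rw [hi]
      have h1 : ((0 : L) : K) / g i₀ = 0 := by
        rw [ZeroMemClass.coe_zero, zero_div]
      rw [h1]
      exact P.p.R.zero_mem
    · have hi' : (g i : K) ≠ 0 := by
        intro h0
        exact hi (by exact_mod_cast h0)
      rw [← ord_nonneg P.p _ (div_ne_zero hi' hg₀), div_eq_mul_inv,
        ord_mul P.p _ _ hi' (inv_ne_zero hg₀), ord_inv]
      have h2 : P.p.ord (g i₀ : K) ≤ P.p.ord (g i : K) :=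
        hmin i (Finset.mem_filter.2 ⟨Finset.mem_univ _, hi⟩)
      omega
  have hc := fun i => res_const P.p L htr hL ((g i : K) / g i₀) (hψL i) (hψR i)
  choose c hc using hc
  have hsum0 : ∑ i, (g i : K) / g i₀ * ((s i : secL D n) : K) = 0 := by
    have h1 : ∑ i, (g i : K) * ((s i : secL D n) : K) = 0 := hg
    have h2 : ∑ i, (g i : K) / g i₀ * ((s i : secL D n) : K) =
        (g i₀ : K)⁻¹ * ∑ i, (g i : K) * ((s i : secL D n) : K) := by
      rw [Finset.mul_sum]
      refine Finset.sum_congr rfl fun i _ => ?_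
      rw [div_eq_mul_inv]
      ring
    rw [h2, h1, mul_zero]
  have hzero : resS h.var P.η D n (∑ i, c i • s i) = 0 := by
    rw [resS_zero]
    intro hun
    have h1 : ((∑ i, c i • s i : secL D n) : K) * D.eq P.η ^ n =
        ∑ i, (-(((g i : K) / g i₀ - algebraMap k K (c i)) *
          (((s i : secL D n) : K) * D.eq P.η ^ n))) := by
      have h2 : ((∑ i, c i • s i : secL D n) : K) =
          ∑ i, algebraMap k K (c i) * ((s i : secL D n) : K) := by
        rw [AddSubmonoidClass.coe_finsetSum]
        refine Finset.sum_congr rfl fun i _ => ?_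
        rw [Submodule.coe_smul, Algebra.smul_def]
      have h3 : ∑ i, (-(((g i : K) / g i₀ - algebraMap k K (c i)) *
          (((s i : secL D n) : K) * D.eq P.η ^ n))) =
          (∑ i, algebraMap k K (c i) * ((s i : secL D n) : K)) * D.eq P.η ^ n -
          (∑ i, (g i : K) / g i₀ * ((s i : secL D n) : K)) * D.eq P.η ^ n := by
        rw [Finset.sum_mul, Finset.sum_mul, ← Finset.sum_sub_distrib]
        refine Finset.sum_congr rfl fun i _ => ?_
        ring
      rw [h2, h3, hsum0, zero_mul, sub_zero]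
    have h2 := rl_sum P.p Finset.univ (fun i => (-(((g i : K) / g i₀ - algebraMap k K (c i)) *
          (((s i : secL D n) : K) * D.eq P.η ^ n)))) (fun i _ => by
      have hsi : ((s i : secL D n) : K) * D.eq P.η ^ n ∈ P.p.R :=
        (P.mem _).1 ((s i).2 P.η)
      by_cases h3 : (g i : K) / g i₀ - algebraMap k K (c i) = 0
      · left
        rw [h3, zero_mul, neg_zero]
      · by_cases h4 : ((s i : secL D n) : K) * D.eq P.η ^ n = 0
        · left
          rw [h4, mul_zero, neg_zero]
        · right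
          rw [rl_neg, ord_mul P.p _ _ h3 h4]
          have h5 := (hc i).resolve_left h3
          have h6 := (ord_nonneg P.p _ h4).2 hsi
          omega)
    rw [← h1] at h2
    obtain ⟨h3, h4, h5⟩ := hun
    have h6 := (ord_eq_zero P.p _ h3).2 ⟨(P.mem _).1 h4, (P.mem _).1 h5⟩
    rcases h2 with h2 | h2
    · exact h3 h2
    · omega
  rw [map_sum] at hzero
  simp only [map_smul] at hzero
  have hc0 := Fintype.linearIndependent_iff.1 hs c hzero i₀
  have h7 := hc i₀
  rw [hc0, map_zero, sub_zero, div_self hg₀, ord_one] at h7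
  rcases h7 with h7 | h7
  · exact one_ne_zero h7
  · exact lt_irrefl _ h7

private theorem rl_lin {k V W : Type*} [Field k] [AddCommGroup V] [Module k V] [AddCommGroup W]
    [Module k W] [Module.Finite k V] (ρ : V →ₗ[k] W) :
    ∃ s : Fin (Module.finrank k (LinearMap.range ρ)) → V,
      LinearIndependent k (fun i => ρ (s i)) := by
  have hb := Module.finBasis k (LinearMap.range ρ)
  have hex : ∀ i, ∃ s : V, ρ s = (hb i : W) := fun i => (hb i).2
  choose s hs using hex
  refine ⟨s, ?_⟩
  have h2 : (fun i => ρ (s i)) = fun i => (LinearMap.range ρ).subtype (hb i) := by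
    funext i
    exact hs i
  rw [h2]
  exact hb.linearIndependent.map' _ (Submodule.ker_subtype _)

private theorem rl_card (L : IntermediateField k K) (V : Submodule k K) (hV : Module.Finite k V)
    (r : ℕ) (s : Fin r → V) (hs : LinearIndependent L (fun i => ((s i : V) : K))) :
    r ≤ Module.finrank L (Submodule.span L (V : Set K)) := by
  have hF := rl_fin L V hV
  have h4 : LinearIndependent L (fun i =>
      (⟨((s i : V) : K), Submodule.subset_span (s i).2⟩ : Submodule.span L (V : Set K))) := by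
    apply LinearIndependent.of_comp (Submodule.span L (V : Set K)).subtype
    exact hs
  have h5 := h4.fintype_card_le_finrank
  rwa [Fintype.card_fin] at h5

theorem res_le [IsAlgClosed k] (h : Hyp X) (L : IntermediateField k K) (htr : Algebra.trdeg k L = 1) (P : PDiv X)
    (C : Cart X) (hC : SPr X P.η C) (hL : ∃ f ∈ L, f ≠ 0 ∧ P.p.ord f ≠ 0) (D : Cart X) (n : ℕ)
    (hfin : Module.Finite k (secL D n)) :
    h0 D n ≤ h0 (D ^ n * C⁻¹) 1 + Module.finrank L (Submodule.span L (secL D n : Set K)) := by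
  rw [ex_dim h.var hC D n]
  refine Nat.add_le_add_left ?_ _
  obtain ⟨s, hs⟩ := rl_lin (resS h.var P.η D n)
  exact rl_card L (secL D n) hfin _ s (rl_indep h L htr P hL D n _ s hs)

end Pool.Agent.H41.TQ
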