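import Pool.Agent.H83.TU.EN
import Pool.Agent.H83.TU.PO
import Pool.Agent.H39.TU.Mai
import Pool.Agent.H20.TU.GRO

/-!
# [H41 TQ Zer] THEOREM Q, chapter (7b): infinitely many prime divisors over the places of `L`

`trdeg_k L = 1`: there are infinitely many prime divisors of `X` whose valuations are not trivial on `L`.

PROOF.  `g ∈ L` transcendental over `k` (`trdeg_k L ≠ 0`; a transcendence basis of `L` is not empty).  Let `c ∈ k` and `ζ = (g - c)⁻¹`, `g - c ≠ 0`.
`polar` (`H83/TU/PO.lean`) gives `M` for `ζ`.  `M⁻¹` is not effective: otherwise `ζ ∈ O x` for all `x` (`polar_mem`), so all powers `ζ ^ i` are in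
`secL 1 1`, which is finite dimensional over `k` (`gf h.var h.gen h.tr`, its first component, is `∀ D n, Module.Finite k (secL D n)`; see
`H39/TU/Mai.lean` and `H83/TQ/Geo.lean` for its use), so `ζ` is algebraic over `k`, so `g = ζ⁻¹ + c` too: contradiction.  `exists_pdiv` (`H83/TU/EN.lean`): a
prime divisor `P_c` with `1 ≤ ord (M.eq η)`, so `(M.eq η)⁻¹ ∉ O η` (`P.mem`, `ord_nonneg`, `ord_inv`), so `ζ ∉ O η` (`polar_mem`), so `ord ζ < 0` and
`ord (g - c) > 0`; `g - c ∈ L` (`IntermediateField.algebraMap_mem`).  `c ↦ P_c.η` is injective: if `P_c.η = P_c'.η` then the valuation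
rings are equal (`P.mem`), and `g - c`, `g - c'` are in the maximal ideal, so is the constant `c' - c`, which is a unit unless
`c = c'`.  `k` is infinite (algebraically closed: `IsAlgClosed.instInfinite` or similar): `Set.infinite_of_injective_forall_mem`.
-/

set_option autoImplicit false

namespace Pool.Agent.H41.TQ

open Pool.Agent.H54.RV Pool.Agent.H83.TU

variable {k K : Type} [Field k] [Field K] [Algebra k K] {X : Mod k K}

theorem prm_inf [IsAlgClosed k] [CharZero k] (h : Hyp X) (L : IntermediateField k K) (htr : Algebra.trdeg k L = 1) :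
    {η : X.P | ∃ P : PDiv X, P.η = η ∧ ∃ f ∈ L, f ≠ 0 ∧ P.p.ord f ≠ 0}.Infinite := by
  have htr0 : Algebra.Transcendental k L := by
    rw [← trdeg_ne_zero_iff, htr]
    exact one_ne_zero
  obtain ⟨g, hg⟩ := htr0.transcendental
  have hgK : Transcendental k (g : K) := fun hcon =>
    hg ((isAlgebraic_algebraMap_iff (algebraMap L K).injective).1 hcon)
  -- an element in all local rings is algebraic
  have hint : ∀ ζ : K, (∀ x, ζ ∈ X.O x) → IsAlgebraic k ζ := by
    intro ζ hζ
    have hGF := Pool.Agent.H20.TU.gf h.var h.gen h.tr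
    have hfin : Module.Finite k (secL (1 : Cart X) 1) := hGF.1 1 1
    have h1 : (1 : K) ∈ secL (1 : Cart X) 1 := by
      rw [mem_secL]
      intro x
      rw [one_eq, one_pow, mul_one]
      exact (X.O x).one_mem
    refine IsIntegral.isAlgebraic (isIntegral_of_smul_mem_submodule (N := secL (1 : Cart X) 1)
      ?_ (Module.Finite.iff_fg.1 hfin) ζ ?_)
    · intro hbot
      rw [hbot, Submodule.mem_bot] at h1
      exact one_ne_zero h1
    · intro n hn
      rw [mem_secL] at hn ⊢
      intro x
      rw [smul_eq_mul, mul_assoc]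
      exact (X.O x).mul_mem (hζ x) (hn x)
  have hne : ∀ c : k, (g : K) - algebraMap k K c ≠ 0 := by
    intro c hc
    apply hgK
    rw [sub_eq_zero.1 hc]
    exact isAlgebraic_algebraMap c
  have hP : ∀ c : k, ∃ P : PDiv X, ((g : K) - algebraMap k K c)⁻¹ ∉ X.O P.η := by
    intro c
    obtain ⟨M, hM1, -, hM2⟩ := polar h ((g : K) - algebraMap k K c)⁻¹ (inv_ne_zero (hne c))
    have hneff : ¬ Effective M⁻¹ := by
      intro hE
      have h2 := hint ((g : K) - algebraMap k K c)⁻¹ (fun x =>
        (polar_mem M _ x (hM2 x)).2 (by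
          have h3 := hE x
          rwa [inv_eq] at h3))
      apply hgK
      have h3 : (g : K) = (((g : K) - algebraMap k K c)⁻¹)⁻¹ + algebraMap k K c := by
        rw [inv_inv]
        ring
      rw [h3]
      exact (h2.inv).add (isAlgebraic_algebraMap c)
    obtain ⟨P, hP⟩ := exists_pdiv h M hM1 hneff
    refine ⟨P, fun hcon => ?_⟩
    have h4 := (polar_mem M _ P.η (hM2 P.η)).1 hcon
    have h5 := (ord_nonneg P.p _ (inv_ne_zero (M.ne P.η))).2 ((P.mem _).1 h4)
    rw [ord_inv] at h5
    omega
  choose P hP using hP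
  refine Set.infinite_of_injective_forall_mem (f := fun c : k => (P c).η) ?_ ?_
  · intro c c' hcc
    by_contra hne'
    have hcc' : (P c).η = (P c').η := hcc
    obtain ⟨R, hR⟩ : ∃ R : ValuationSubring K, R = (P c).p.R := ⟨_, rfl⟩
    have ha : ((g : K) - algebraMap k K c)⁻¹ ∉ R := by
      rw [hR]
      exact fun h1 => hP c (((P c).mem _).2 h1)
    have hb : ((g : K) - algebraMap k K c')⁻¹ ∉ R := by
      rw [hR]
      intro h1
      refine hP c' ?_
      rw [← hcc']
      exact ((P c).mem _).2 h1
    have hk : ∀ d : k, algebraMap k K d ∈ R := by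
      rw [hR]
      exact (P c).p.mem
    have he0 : algebraMap k K (c' - c) ≠ 0 := by
      rw [Ne, map_eq_zero, sub_eq_zero]
      exact fun h1 => hne' h1.symm
    have he : (algebraMap k K (c' - c))⁻¹ ∈ R := by
      rw [← map_inv₀]
      exact hk _
    have hd : algebraMap k K (c' - c) = ((g : K) - algebraMap k K c) - ((g : K) - algebraMap k K c') := by
      rw [map_sub]
      ring
    rcases R.mem_or_inv_mem (((g : K) - algebraMap k K c') / ((g : K) - algebraMap k K c)) with h1 | h1
    · apply ha
      have h2 : ((g : K) - algebraMap k K c)⁻¹ = (algebraMap k K (c' - c))⁻¹ *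
          (1 - ((g : K) - algebraMap k K c') / ((g : K) - algebraMap k K c)) := by
        have h3 := hne c
        rw [eq_inv_mul_iff_mul_eq₀ he0, hd]
        field_simp
      rw [h2]
      exact R.mul_mem _ _ he (R.sub_mem R.one_mem h1)
    · apply hb
      rw [inv_div] at h1
      have h2 : ((g : K) - algebraMap k K c')⁻¹ = (algebraMap k K (c' - c))⁻¹ *
          (((g : K) - algebraMap k K c) / ((g : K) - algebraMap k K c') - 1) := by
        have h3 := hne c'
        rw [eq_inv_mul_iff_mul_eq₀ he0, hd]
        field_simp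
      rw [h2]
      exact R.mul_mem _ _ he (R.sub_mem h1 R.one_mem)
  · intro c
    refine ⟨P c, rfl, (g : K) - algebraMap k K c, L.sub_mem g.2 (L.algebraMap_mem c), hne c, ?_⟩
    intro h0
    apply hP c
    rw [(P c).mem, ← ord_nonneg _ _ (inv_ne_zero (hne c)), ord_inv, h0, neg_zero]

end Pool.Agent.H41.TQ
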