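import Pool.Agent.H41.TQ.Two
import Pool.Agent.H41.TQ.ResL
import Pool.Agent.H41.TQ.Zer
import Pool.Agent.H41.TQ.Pol
import Pool.Agent.H83.TQ.Geo

/-!
# [H41 TQ Prm] THEOREM Q, chapters (6) and (7), output

`D` ample with a section, `F ≠ F'` algebraically closed in `K`, `trdeg_F K = trdeg_F' K = 1`, `dim_F (F L(nD)) ≤ γ n` and `dim_F' (F' L(nD)) ≤ γ' n` for large
`n`.  Then `D.D.D ≤ 8 (γ + γ')³`, or there is a field `L ≤ F ∩ F'` with `trdeg_k L = 1`, such that `D.D.C ≤ (γ + γ')²` for all prime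
divisors `C` of `X` whose valuations are not trivial on `L`; there are infinitely many of them.
-/

set_option autoImplicit false

namespace Pool.Agent.H41.TQ

open Pool.Agent.H54.RV Pool.Agent.H83.TU Pool.Agent.H83.TK Pool.Agent.H24.TU Pool.Agent.H24.VP Pool.Agent.H20.TU
  Pool.Agent.H39.TU

variable {k K : Type} [Field k] [Field K] [Algebra k K] {X : Mod k K} {T : Cart X → Cart X → Cart X → ℝ}
  {l : Cart X → ℝ} {c : ℝ}

theorem prm_field [IsAlgClosed k] [CharZero k] (h : Hyp X) (hr : RR T l c) (D : Cart X) (hD : Ample D) (h1 : 0 < h0 D 1)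
    (F F' : IntermediateField k K) (hF : Algebra.trdeg F K = 1) (hF' : Algebra.trdeg F' K = 1)
    (hc : ∀ f : K, IsAlgebraic F f → f ∈ F) (hc' : ∀ f : K, IsAlgebraic F' f → f ∈ F') (hne : F ≠ F')
    (γ γ' n₀ : ℕ) (hγ : ∀ n ≥ n₀, Module.finrank F (Submodule.span F (secL D n : Set K)) ≤ γ * n)
    (hγ' : ∀ n ≥ n₀, Module.finrank F' (Submodule.span F' (secL D n : Set K)) ≤ γ' * n) :
    T D D D ≤ 8 * ((γ + γ' : ℕ) : ℝ) ^ 3 ∨
      ∃ L : IntermediateField k K, L ≤ F ∧ L ≤ F' ∧ Algebra.trdeg k L = 1 ∧ Algebra.trdeg L K = 2 ∧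
        ∀ P : PDiv X, (∃ f ∈ L, f ≠ 0 ∧ P.p.ord f ≠ 0) → ∀ C : Cart X, SPr X P.η C →
          T D D C ≤ ((γ + γ' : ℕ) : ℝ) ^ 2 := by
  classical
  have hess : Algebra.EssFiniteType k K := by
    have h1 := K_fg h.var h.gen
    have h2 := IntermediateField.essFiniteType_iff.2 h1
    exact Algebra.EssFiniteType.of_surjective
      (IntermediateField.topEquiv (F := k) (E := K)).toAlgHom
      (IntermediateField.topEquiv (F := k) (E := K)).surjective
  have hGF := gf h.var h.gen h.tr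
  have hUF := uf_all h.var
  obtain ⟨S, hS⟩ : ∃ S : GSys k K, S.L = secL D := ⟨
    { L := secL D
      one_mem := fun y => by
        rw [pow_zero, mul_one]
        exact (X.O y).one_mem
      mul_mem := by
        intro m n f g hf hg y
        have h1 := (X.O y).mul_mem (hf y) (hg y)
        have h2 : f * g * D.eq y ^ (m + n) = f * D.eq y ^ m * (g * D.eq y ^ n) := by
          rw [pow_add]
          ring
        rw [h2]
        exact h1
      fin := hGF.1 D
      ne_bot := by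
        intro h2
        have h3 : h0 D 1 = 0 := by
          unfold h0
          rw [h2]
          exact finrank_bot k K
        omega
      frac := frac_sec h hUF D hD }, rfl⟩
  have hle : ∀ n ≥ n₀, Module.finrank F (Submodule.span F (secL D n : Set K)) +
      Module.finrank F' (Submodule.span F' (secL D n : Set K)) ≤ (γ + γ') * n := fun n hn => by
    rw [add_mul]
    exact Nat.add_le_add (hγ n hn) (hγ' n hn)
  by_cases hA : ∀ n ≥ n₀, h0 D n ≤ (2 * ((γ + γ') * n) + 3).choose 3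
  · exact Or.inl (pol_vol hr D hD (γ + γ') n₀ hA)
  · push Not at hA
    obtain ⟨n, hn, hlt⟩ := hA
    refine Or.inr ?_
    obtain ⟨L, hLF, hLF', hL, hLb⟩ := chain_field h.tr S F F' hF hF' hc hc' hne n (by
      rw [hS]
      exact lt_of_le_of_lt (Nat.choose_le_choose 3 (by have := hle n hn; omega)) hlt)
    have hkL : Algebra.trdeg k L = 1 := by
      have h2 := _root_.trdeg_add_eq k L (A := K)
      rw [hL, h.tr] at h2
      have h3 : Algebra.trdeg k L + 2 = 1 + 2 := by
        rw [h2]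
        norm_num
      exact Cardinal.eq_of_add_eq_add_right h3 (by exact_mod_cast Cardinal.natCast_lt_aleph0 (n := 2))
    refine ⟨L, hLF, hLF', hkL, hL, fun P hP C hC => ?_⟩
    refine pol_prm hr D C hD (γ + γ') n₀ fun m hm => ?_
    refine (res_le h L hkL P C hC hP D m (hGF.1 D m)).trans (Nat.add_le_add_left ?_ _)
    have h2 := hLb m
    rw [hS] at h2
    exact h2.trans (Nat.choose_le_choose 2 (by have := hle m hm; omega))

theorem prm_bound [IsAlgClosed k] [CharZero k] (h : Hyp X) (hr : RR T l c) (D : Cart X) (hD : Ample D) (h1 : 0 < h0 D 1)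
    (F F' : IntermediateField k K) (hF : Algebra.trdeg F K = 1) (hF' : Algebra.trdeg F' K = 1)
    (hc : ∀ f : K, IsAlgebraic F f → f ∈ F) (hc' : ∀ f : K, IsAlgebraic F' f → f ∈ F') (hne : F ≠ F')
    (γ γ' n₀ : ℕ) (hγ : ∀ n ≥ n₀, Module.finrank F (Submodule.span F (secL D n : Set K)) ≤ γ * n)
    (hγ' : ∀ n ≥ n₀, Module.finrank F' (Submodule.span F' (secL D n : Set K)) ≤ γ' * n) :
    T D D D ≤ 8 * ((γ + γ' : ℕ) : ℝ) ^ 3 ∨
      {η : X.P | ∃ P : PDiv X, P.η = η ∧ ∃ C : Cart X, SPr X P.η C ∧ T D D C ≤ ((γ + γ' : ℕ) : ℝ) ^ 2}.Infinite := by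
  rcases prm_field h hr D hD h1 F F' hF hF' hc hc' hne γ γ' n₀ hγ hγ' with h1 | ⟨L, -, -, hL, -, h1⟩
  · exact Or.inl h1
  · refine Or.inr ((prm_inf h L hL).mono ?_)
    rintro η ⟨P, hP, hf⟩
    obtain ⟨C, hC⟩ := pdiv_spr h P
    exact ⟨P, hP, C, hC, h1 P hf C hC⟩

end Pool.Agent.H41.TQ
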