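import Pool.Agent.H24.TU.Def

/-!
# [H41 TQ Bas] THEOREM Q, chapter (6): a basis of `F L_n` over `F`, in terms of a derivation

`derL`: an `F`-derivation of `K` as a derivation over a smaller field `L`.
`exists_basis`: `F` is the field of constants of `D`; the elements `e` of an `F`-basis of `F L_n` are linearly independent over
the constants and every element of `F L_n` is a combination of them with constant coefficients.

PROOF.  The `F`-span of `S.L n` is finite dimensional: `S.fin n`: `S.L n` is the `k`-span of a finite set, whose `F`-span is the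
`F`-span of `S.L n` (see `hfinF` in `H39/TU/CB.lean`: `Submodule.span_le_restrictScalars`).  `e := Module.finBasis F _`, coerced to
`K`.  Independence: constants `b l` are in `F`, `(⟨b l, _⟩ : F) • e l = b l * e l`, `Fintype.linearIndependent_iff`.  Expansion:
`Module.Basis.sum_repr`.
-/

set_option autoImplicit false

namespace Pool.Agent.H41.TQ

open Pool.Agent.H24.TU

universe u

variable {k K : Type u} [Field k] [Field K] [Algebra k K]

/-- a derivation over `F` as a derivation over a smaller field -/
noncomputable def derL (L F : IntermediateField k K) (h : L ≤ F) (D : Derivation F K K) : Derivation L K K where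
  toFun f := D f
  map_add' a b := map_add D a b
  map_smul' c f := by
    have h1 : c • f = (⟨(c : K), h c.2⟩ : F) • f := rfl
    rw [h1, Derivation.map_smul]
    rfl
  map_one_eq_zero' := D.map_one_eq_zero
  leibniz' a b := D.leibniz a b

theorem derL_apply (L F : IntermediateField k K) (h : L ≤ F) (D : Derivation F K K) (f : K) : derL L F h D f = D f := rfl

theorem exists_basis (F : IntermediateField k K) (D : Derivation F K K) (hD : ∀ c : K, D c = 0 ↔ c ∈ F) (S : GSys k K)
    (n : ℕ) : ∃ e : Fin (Module.finrank F (Submodule.span F (S.L n : Set K))) → K,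
      (∀ b : Fin (Module.finrank F (Submodule.span F (S.L n : Set K))) → K,
        (∀ l, D (b l) = 0) → ∑ l, b l * e l = 0 → b = 0) ∧
      ∀ f ∈ Submodule.span F (S.L n : Set K),
        ∃ φ : Fin (Module.finrank F (Submodule.span F (S.L n : Set K))) → K,
          (∀ l, D (φ l) = 0) ∧ f = ∑ l, φ l * e l := by
  have hfin : Module.Finite F (Submodule.span F (S.L n : Set K)) := by
    have := S.fin n
    obtain ⟨s, hs⟩ := (Submodule.fg_iff_finiteDimensional (S.L n)).2 this
    have h1 : Submodule.span F (S.L n : Set K) = Submodule.span F (s : Set K) := by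
      apply le_antisymm
      · rw [Submodule.span_le, ← hs]
        exact Submodule.span_le_restrictScalars k F (s : Set K)
      · refine Submodule.span_mono fun x hx => ?_
        rw [← hs]
        exact Submodule.subset_span hx
    rw [h1]
    exact FiniteDimensional.span_of_finite F s.finite_toSet
  obtain ⟨B, hB⟩ : ∃ B : Module.Basis (Fin (Module.finrank F (Submodule.span F (S.L n : Set K)))) F
      (Submodule.span F (S.L n : Set K)), B = Module.finBasis F _ := ⟨_, rfl⟩
  refine ⟨fun l => (B l : K), fun b hb h0 => ?_, fun f hf => ?_⟩
  · obtain ⟨b', hb'⟩ : ∃ b' : Fin (Module.finrank F (Submodule.span F (S.L n : Set K))) → F,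
        ∀ l, (b' l : K) = b l := ⟨fun l => ⟨b l, (hD _).1 (hb l)⟩, fun l => rfl⟩
    have h1 : ∑ l, b' l • B l = 0 := by
      apply Subtype.ext
      rw [Submodule.coe_sum, Submodule.coe_zero, ← h0]
      refine Finset.sum_congr rfl fun l _ => ?_
      rw [Submodule.coe_smul, ← hb']
      rfl
    have h2 := Fintype.linearIndependent_iff.1 B.linearIndependent b' h1
    funext l
    rw [← hb', h2]
    rfl
  · refine ⟨fun l => (B.repr ⟨f, hf⟩ l : K), fun l => (hD _).2 (B.repr ⟨f, hf⟩ l).2, ?_⟩
    have h1 := congrArg (fun x : Submodule.span F (S.L n : Set K) => (x : K)) (B.sum_repr ⟨f, hf⟩)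
    simp only [Submodule.coe_sum] at h1
    refine h1.symm.trans (Finset.sum_congr rfl fun l _ => ?_)
    rw [Submodule.coe_smul]
    rfl

end Pool.Agent.H41.TQ
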