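import Pool.Agent.H24.TU.Trans

/-!
# [H41 TQ Cls] THEOREM Q, chapter (6): closedness of a family with small loss

`P = ptI x y ≤ dI`.  `hl`: for `f ∈ M_n`, order at least `r + l` at `dI` implies order at least `r` at `P` (the loss is at most `l`).
`g ∈ M_n` has order at least `s > 2 l` at `dI`, and no prime properly contained in `P` contains `g`.  Then
`P.map (chg K x) ≤ P.map (chg K y)`.

PROOF.  This is the proof of `transitivity` (`H24/TU/Trans.lean`, end of the file) with another last step; its private lemmas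
`tr_smul`, `tr_chg`, `tr_comap_x`, `tr_comap_y` have to be copied (private, with another prefix: `cls_smul`, ..); `span_ord` is public.  Let
`Q` be a minimal prime of `P.map (chg K y)` with `Q ≤ ptI id y`; `Q.comap (chg K y) = P` (`comap_minimal`).  `hl` (with `s = (s - l) + l`):
`OrdGE P (s - l) g`, so `OrdGE (ptI id y) (s - l) (chg K x g)` (`ordGE_comap`, `tr_comap_x`).  `span_ord`: `chg K x g` is in the
`κ`-span of the `chg K y f'`, `f' ∈ M_n`, `OrdGE (dI) (s - l) f'`; `s - l ≥ 1 + l`, so `OrdGE P 1 f'` (`hl`, `OrdGE_mono`), i.e. `f' ∈ P`,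
so `chg K y f' ∈ Q`.  Hence `chg K x g ∈ Q`, `g ∈ Q.comap (chg K x) ≤ P` (as in `transitivity`), which is prime: `hmin` gives
`Q.comap (chg K x) = P`.  The end (from `rw [Ideal.map_le_iff_le_comap]`) is the same.
-/

set_option autoImplicit false

open scoped TensorProduct

namespace Pool.Agent.H41.TQ

open Pool.Agent.H24.TU

universe u

variable {k K κ : Type u} [Field k] [Field K] [Field κ] [Algebra k K] [Algebra k κ]

private theorem cls_smul {X : Type u} [Field X] [Algebra k X] (c : X) (v : X ⊗[k] K) :
    c • v = (c ⊗ₜ[k] (1 : K)) * v := by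
  rw [Algebra.smul_def, Algebra.TensorProduct.algebraMap_apply]
  rfl

private theorem cls_chg {X X' : Type u} [Field X] [Algebra k X] [Field X'] [Algebra k X']
    (φ : X →ₐ[k] X') (L' : Submodule k K) {u : X ⊗[k] K} (hu : u ∈ L'.baseChange X) :
    chg K φ u ∈ L'.baseChange X' := by
  rw [Submodule.baseChange_eq_span] at hu
  induction hu using Submodule.span_induction with
  | mem v hv =>
    obtain ⟨f, hf, rfl⟩ := hv
    show chg K φ ((1 : X) ⊗ₜ[k] f) ∈ _
    rw [chg_tmul]
    exact Submodule.tmul_mem_baseChange_of_mem _ hf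
  | zero => rw [map_zero]; exact Submodule.zero_mem _
  | add a b _ _ ha hb => rw [map_add]; exact Submodule.add_mem _ ha hb
  | smul c v _ hv =>
    have h : chg K φ (c • v) = φ c • chg K φ v := by
      rw [cls_smul, map_mul, chg_tmul, cls_smul]
    rw [h]
    exact Submodule.smul_mem _ _ hv

private theorem cls_comap_x (x y : K →ₐ[k] κ) :
    (ptI (AlgHom.id k κ) y).comap (chg K x) = ptI x y := by
  have h : ∀ u : K ⊗[k] K, pt (AlgHom.id k κ) y (chg K x u) = pt x y u := by
    intro u
    induction u using TensorProduct.induction_on with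
    | zero => simp
    | add a b ha hb => simp only [map_add, ha, hb]
    | tmul a f => simp
  ext u
  rw [Ideal.mem_comap, mem_ptI, mem_ptI, h]

theorem closed_of_ord [CharZero k] [Algebra.EssFiniteType k K] (S : GSys k K) (x y : K →ₐ[k] κ)
    (hPI : ptI x y ≤ dI k K) (n l s : ℕ) (hls : 2 * l < s)
    (hl : ∀ f ∈ S.M K n, ∀ r, OrdGE (dI k K) (r + l) f → OrdGE (ptI x y) r f)
    {g : K ⊗[k] K} (hg : g ∈ S.M K n) (hgs : OrdGE (dI k K) s g)
    (hmin : ∀ Q : Ideal (K ⊗[k] K), Q.IsPrime → Q ≤ ptI x y → g ∈ Q → Q = ptI x y) :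
    (ptI x y).map (chg K x) ≤ (ptI x y).map (chg K y) := by
  have hP : (ptI x y).IsPrime := inferInstance
  have key : ∀ Q ∈ ((ptI x y).map (chg K y)).minimalPrimes, Q ≤ ptI (AlgHom.id k κ) y →
      Q.comap (chg K x) = ptI x y := by
    intro Q hQ hQI
    have hQp : Q.IsPrime := hQ.1.1
    have hc : Q.comap (chg K y) = ptI x y := comap_minimal y hP hQ
    have hgP : OrdGE (ptI x y) (s - l) g := by
      refine hl g hg (s - l) ?_
      rw [Nat.sub_add_cancel (by omega)]
      exact hgs
    have h1 : OrdGE (ptI (AlgHom.id k κ) y) (s - l) (chg K x g) := by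
      rw [← ordGE_comap, cls_comap_x]
      exact hgP
    have h2 := span_ord y (S.L n) (S.fin n) (cls_chg x (S.L n) hg) h1
    have h3 : chg K x g ∈ Q := by
      generalize chg K x g = w at h2
      induction h2 using Submodule.span_induction with
      | mem v hv =>
        obtain ⟨f', ⟨hf1, hf2⟩, rfl⟩ := hv
        have h4 : OrdGE (ptI x y) 1 f' :=
          hl f' hf1 1 (OrdGE_mono (by omega) hf2)
        have h5 : f' ∈ Q.comap (chg K y) := by
          rw [hc]
          exact h4.1
        exact h5
      | zero => exact Q.zero_mem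
      | add a b _ _ ha hb => exact Q.add_mem ha hb
      | smul c v _ hv =>
        rw [cls_smul]
        exact Q.mul_mem_left _ hv
    have hle : Q.comap (chg K x) ≤ ptI x y := by
      rw [← cls_comap_x x y]
      exact Ideal.comap_mono hQI
    exact hmin (Q.comap (chg K x)) (Ideal.IsPrime.comap _) hle h3
  rw [Ideal.map_le_iff_le_comap]
  intro p hp
  rw [Ideal.mem_comap]
  obtain ⟨t, ht, n', hn⟩ := exists_mul_pow_mem (ptI (AlgHom.id k κ) y) inferInstance
    ((ptI x y).map (chg K y)) (chg K x p) (by
      intro Q hQ hQI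
      have h1 : p ∈ Q.comap (chg K x) := by rw [key Q hQ hQI]; exact hp
      exact h1)
  exact map_isRadical y hP ⟨n', saturated y hP hPI ht hn⟩

end Pool.Agent.H41.TQ
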