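import Pool.Agent.H24.TU.DerEx

/-!
# [H41 TQ Cst] THEOREM Q, chapter (6): a derivation with field of constants `F`

`F` algebraically closed in `K`, `trdeg K / F = 1`, characteristic `0`: there is an `F`-derivation `D` of `K` with
`D c = 0` exactly for `c ∈ F`.

PROOF.  `CharZero F` (`charZero_of_injective_algebraMap`).  A transcendence basis of `K / F` has one element `t`
(`exists_isTranscendenceBasis'` or `exists_isTranscendenceBasis`, `IsTranscendenceBasis.cardinalMk_eq_trdeg`; reindex by `Fin 1` or
`Unit`).  `exists_derivation` (`H24/TU/DerEx.lean`, base field `F`, `M = K`) gives `D` with `D t = 1`.  `D` vanishes on `F`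
(`Derivation.map_algebraMap`).  If `D c = 0` and `c ∉ F` then `c` is transcendental over `F` (`hc`), so `(c)` is a transcendence
basis of `K / F` (algebraically independent with `trdeg` elements: `AlgebraicIndependent.isTranscendenceBasis_of_trdeg_le`, see
`trd_surj` in `H24/TU/TrD.lean`), and `derivation_eq_zero` (`H24/TU/DerEx.lean`) gives `D = 0`, against `D t = 1`.
-/

set_option autoImplicit false

namespace Pool.Agent.H41.TQ

open Pool.Agent.H24.TU

universe u

theorem exists_der {k K : Type u} [Field k] [CharZero k] [Field K] [Algebra k K] (F : IntermediateField k K)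
    (hF : Algebra.trdeg F K = 1) (hc : ∀ f : K, IsAlgebraic F f → f ∈ F) :
    ∃ D : Derivation F K K, ∀ c : K, D c = 0 ↔ c ∈ F := by
  have hF0 : CharZero F := charZero_of_injective_algebraMap (algebraMap k F).injective
  obtain ⟨s, hs⟩ := exists_isTranscendenceBasis F K
  have hcard := hs.cardinalMk_eq_trdeg
  rw [hF] at hcard
  obtain ⟨D, hD⟩ := exists_derivation (M := K) hs (fun _ => 1)
  refine ⟨D, fun c => ⟨fun h => ?_, fun h => D.map_algebraMap ⟨c, h⟩⟩⟩
  by_contra hn
  have htr : Transcendental F c := fun ha => hn (hc c ha)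
  have hind : AlgebraicIndependent F (fun _ : PUnit.{u + 1} => c) :=
    algebraicIndependent_unique_type_iff.2 htr
  have hb : IsTranscendenceBasis F (fun _ : PUnit.{u + 1} => c) := by
    refine hind.isTranscendenceBasis_of_trdeg_le ?_ ?_
    · rw [hF]
      exact Cardinal.one_lt_aleph0
    · rw [hF, Cardinal.mk_punit]
  have h0 := derivation_eq_zero hb D (fun _ => h)
  have hne : Nonempty s := by
    rw [← Cardinal.mk_ne_zero_iff, hcard]
    exact one_ne_zero
  obtain ⟨i⟩ := hne
  have h1 := hD i
  rw [h0] at h1
  exact zero_ne_one h1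

end Pool.Agent.H41.TQ
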