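import Pool.Agent.H24.TU.Cmp

/-!
# [H41 TQ Exo] THEOREM Q, chapter (6): elements of high order at the diagonal

A `K`-subspace `V` of `K ⊗ K` of dimension more than `(r + 2).choose 3` contains a nonzero element of order at least `r`.

PROOF.  `ordGE_iff` (`H24/TU/TayOrd.lean`): `OrdGE (dI k K) r g` iff the coefficients of `tay C g` of degree `< r` vanish.  The `K`-linear
map `V → ({a : Fin 3 →₀ ℕ | a.degree < r} → K)`, `g ↦ coeff a (tay C g)` (`tay_add`, `tay_smul`), has a target of dimension at most
`(r + 2).choose 3` (`card_degree_le` in `H24/TU/Cmp.lean`, for `d = r - 1`; `r = 0`: the target is `0` and every nonzero element of `V` is fine),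
so it is not injective (`LinearMap.finrank_le_finrank_of_injective`, or `exists_ne_zero_mem_ker`-type lemmas).  See the proof of
`max_order` in `H24/TU/Cmp.lean`, second half.  (`V` is finite dimensional because its `finrank` is positive.)
-/

set_option autoImplicit false

open scoped TensorProduct

namespace Pool.Agent.H41.TQ

open Pool.Agent.H24.TU

universe u

theorem exists_ord {k K : Type u} [Field k] [CharZero k] [Field K] [Algebra k K] (C : Coord k K)
    (V : Submodule K (K ⊗[k] K)) (r : ℕ) (h : (r + 2).choose 3 < Module.finrank K V) :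
    ∃ g ∈ V, g ≠ 0 ∧ OrdGE (dI k K) r g := by
  classical
  have hVf : Module.Finite K V := Module.finite_of_finrank_pos (by omega)
  rcases r with _ | d
  · have hV : V ≠ ⊥ := by
      rintro rfl
      rw [finrank_bot] at h
      omega
    obtain ⟨g, hg, hg0⟩ := Submodule.exists_mem_ne_zero_of_ne_bot hV
    exact ⟨g, hg, hg0, (ordGE_iff C 0 g).2 fun a ha => absurd ha (Nat.not_lt_zero _)⟩
  · obtain ⟨hF, hc⟩ := card_degree_le d
    have : Fintype {a : Fin 3 →₀ ℕ | a.degree ≤ d} := hF.fintype
    let φ : V →ₗ[K] ({a : Fin 3 →₀ ℕ | a.degree ≤ d} → K) :=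
      { toFun := fun f a => MvPowerSeries.coeff (a : Fin 3 →₀ ℕ) (tay C (f : K ⊗[k] K))
        map_add' := by
          intro f g
          funext a
          rw [Submodule.coe_add, tay_add, map_add]
          rfl
        map_smul' := by
          intro c f
          funext a
          rw [Submodule.coe_smul, tay_smul, map_smul]
          rfl }
    have hninj : ¬ Function.Injective φ := by
      intro hinj
      have h3 := LinearMap.finrank_le_finrank_of_injective hinj
      rw [Module.finrank_fintype_fun_eq_card] at h3
      rw [Set.ncard_eq_toFinset_card', Set.toFinset_card] at hc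
      have h4 : Module.finrank K V ≤ (d + 3).choose 3 := by
        rw [← hc]
        exact h3
      have h5 : (d + 1 + 2).choose 3 = (d + 3).choose 3 := by
        rw [show d + 1 + 2 = d + 3 from by omega]
      omega
    have hker : LinearMap.ker φ ≠ ⊥ := fun h0 => hninj (LinearMap.ker_eq_bot.1 h0)
    obtain ⟨g, hg, hg0⟩ := Submodule.exists_mem_ne_zero_of_ne_bot hker
    refine ⟨g, g.2, fun h0 => hg0 (Subtype.ext h0), (ordGE_iff C (d + 1) g).2 fun a ha => ?_⟩
    exact congrFun (LinearMap.mem_ker.1 hg) ⟨a, (by
      show a.degree ≤ d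
      omega)⟩

end Pool.Agent.H41.TQ
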