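import Mathlib

/-!
# [H41 TQ Fne] THEOREM Q, chapter (6): two different fields (Mathlib only)

`F ≠ F'` intermediate fields, algebraically closed in `K`, with `trdeg_F K = trdeg_F' K = 1`: some `f ∈ F` is not in `F'`.

PROOF.  Otherwise `F ≤ F'`, and there is `f' ∈ F'`, `f' ∉ F`.  It is transcendental over `F` (`hc`).  As `trdeg_F K = 1`, `(f')` is a
transcendence basis of `K / F` (`AlgebraicIndependent.isTranscendenceBasis_of_trdeg_le`, compare `trd_surj` in `H24/TU/TrD.lean`), so
every `x ∈ K` is algebraic over `F(f') ≤ F'`, so over `F'` (a nonzero polynomial over `F⟮f'⟯` or over `Algebra.adjoin F {f'}` with root `x` is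
a nonzero polynomial over `F'`).  So `K / F'` is algebraic and `trdeg_F' K = 0` (`Algebra.trdeg_eq_zero_of_isAlgebraic` or
`Algebra.IsAlgebraic.trdeg_eq_zero`): contradiction.  (Alternatively the tower law `Algebra.trdeg_add_eq` for `F ⊆ F' ⊆ K` with the algebra
structure of `IntermediateField.inclusion`.)
-/

set_option autoImplicit false

namespace Pool.Agent.H41.TQ

theorem exists_not_mem {k K : Type*} [Field k] [Field K] [Algebra k K] (F F' : IntermediateField k K)
    (hF : Algebra.trdeg F K = 1) (hF' : Algebra.trdeg F' K = 1) (hc : ∀ f : K, IsAlgebraic F f → f ∈ F)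
    (hne : F ≠ F') : ∃ f ∈ F, f ∉ F' := by
  by_contra hcon
  push Not at hcon
  have hle : F ≤ F' := fun f hf => hcon f hf
  obtain ⟨f', hf', hf'n⟩ : ∃ f' ∈ F', f' ∉ F := by
    by_contra h
    push Not at h
    exact hne (le_antisymm hle (fun f hf => h f hf))
  have htr : Transcendental F f' := fun h => hf'n (hc f' h)
  have hind : AlgebraicIndependent F (fun _ : Unit => f') :=
    (algebraicIndependent_unique_type_iff).2 htr
  have hfin : Algebra.trdeg F K < Cardinal.aleph0 := by
    rw [hF]
    exact Cardinal.one_lt_aleph0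
  have hb : IsTranscendenceBasis F (fun _ : Unit => f') := by
    refine hind.isTranscendenceBasis_of_lift_trdeg_le ?_ ?_
    · exact hfin
    · rw [hF]
      simp
  have halg : Algebra.IsAlgebraic (Algebra.adjoin F (Set.range (fun _ : Unit => f'))) K :=
    hb.isAlgebraic
  have hsub : ∀ x : Algebra.adjoin F (Set.range (fun _ : Unit => f')), (x : K) ∈ F' := by
    intro x
    have h1 : Algebra.adjoin F (Set.range (fun _ : Unit => f')) ≤
        (IntermediateField.extendScalars hle).toSubalgebra := by
      refine Algebra.adjoin_le ?_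
      rintro y ⟨_, rfl⟩
      exact hf'
    exact h1 x.2
  letI inst : Algebra (Algebra.adjoin F (Set.range (fun _ : Unit => f'))) F' :=
    RingHom.toAlgebra
      { toFun := fun x => ⟨(x : K), hsub x⟩
        map_one' := rfl
        map_mul' := fun _ _ => rfl
        map_zero' := rfl
        map_add' := fun _ _ => rfl }
  haveI : IsScalarTower (Algebra.adjoin F (Set.range (fun _ : Unit => f'))) F' K :=
    IsScalarTower.of_algebraMap_eq fun _ => rfl
  have hinj : Function.Injective
      (algebraMap (Algebra.adjoin F (Set.range (fun _ : Unit => f'))) F') := by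
    intro x y h
    exact Subtype.ext (congrArg (fun z : F' => (z : K)) h)
  have halg2 : Algebra.IsAlgebraic F' K := ⟨fun y => (halg.isAlgebraic y).extendScalars hinj⟩
  have h0 : Algebra.trdeg F' K = 0 := _root_.trdeg_eq_zero
  rw [hF'] at h0
  exact one_ne_zero h0

end Pool.Agent.H41.TQ
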