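import Mathlib

/-!
# [H41 TQ GenB] THEOREM Q, chapter (6): `1 ⊗ t - c ⊗ 1` is not a zero divisor (Mathlib only)

`t ∈ K` transcendental over `F`, `κ` any extension field of `F`, `c ∈ κ`: `1 ⊗ t - c ⊗ 1` is a nonzerodivisor of `κ ⊗[F] K`.

PROOF 1 (flatness).  `F[X] → K`, `X ↦ t` is injective, so `K` is a torsion free module over the principal ideal domain
`F[X]`, hence flat.  `κ ⊗[F] K = (κ ⊗[F] F[X]) ⊗[F[X]] K = κ[X] ⊗[F[X]] K` is flat over `κ[X]`, and `X - C c` is a nonzerodivisor of
the domain `κ[X]`; multiplication by it stays injective after the flat base change.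
PROOF 2 (by hand).  Let `w ∈ κ ⊗[F] K` with `(1 ⊗ t - c ⊗ 1) w = 0`.  Let `E = F(t) ⊆ K` (`IntermediateField.adjoin F {t}`) and
`(ε_i)` a basis of `K` over `E`: `w = ∑ i, w_i (1 ⊗ ε_i)` with unique `w_i ∈ κ ⊗[F] E` (`κ ⊗[F] K = (κ ⊗[F] E) ⊗[E] K`,
`Algebra.TensorProduct.cancelBaseChange`, `Module.Basis.baseChange`), so `(1 ⊗ t - c ⊗ 1) w_i = 0`.  `E` is the fraction field of
`F[t]`: a common denominator `q ∈ F[t]`, `q ≠ 0`, brings `w_i` into the image of `κ ⊗[F] F[X] = κ[X]` (injective: `κ` is flat over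
`F`), which is a domain in which `X - c ≠ 0`; so `(1 ⊗ q) w_i = 0`, and `1 ⊗ q` is a unit.
Any other proof is welcome.
-/

set_option autoImplicit false

open scoped TensorProduct

namespace Pool.Agent.H41.TQ

private theorem d_inj {F κ : Type*} [Field F] [Field κ] [Algebra F κ] (c : κ) :
    Function.Injective (LinearMap.mulLeft (Polynomial F)
      ((Polynomial.X : Polynomial F) ⊗ₜ[F] (1 : κ) - (1 : Polynomial F) ⊗ₜ[F] c)) := by
  rw [injective_iff_map_eq_zero]
  intro w hw
  rw [LinearMap.mulLeft_apply] at hw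
  obtain ⟨e, he⟩ : ∃ e : (Polynomial F ⊗[F] κ) ≃ₐ[F] Polynomial κ,
      e = (Algebra.TensorProduct.comm F (Polynomial F) κ).trans (polyEquivTensor F κ).symm :=
    ⟨_, rfl⟩
  have h1 : e ((Polynomial.X : Polynomial F) ⊗ₜ[F] (1 : κ)) = Polynomial.X := by
    rw [he, AlgEquiv.trans_apply, Algebra.TensorProduct.comm_tmul,
      polyEquivTensor_symm_apply_tmul_eq_smul, Polynomial.map_X, one_smul]
  have h2 : e ((1 : Polynomial F) ⊗ₜ[F] c) = Polynomial.C c := by
    rw [he, AlgEquiv.trans_apply, Algebra.TensorProduct.comm_tmul,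
      polyEquivTensor_symm_apply_tmul_eq_smul, Polynomial.map_one, Polynomial.smul_eq_C_mul,
      mul_one]
  have h3 := congrArg e hw
  rw [map_mul, map_sub, h1, h2, map_zero, mul_eq_zero] at h3
  rcases h3 with h3 | h3
  · exact absurd h3 (Polynomial.X_sub_C_ne_zero c)
  · exact (map_eq_zero_iff e e.injective).1 h3

private theorem gen_nzd' {F K κ : Type*} [Field F] [Field K] [Field κ] [Algebra F K]
    [Algebra F κ] (t : K) (ht : Transcendental F t) (c : κ) (z : K ⊗[F] κ)
    (hz : (t ⊗ₜ[F] (1 : κ) - (1 : K) ⊗ₜ[F] c) * z = 0) : z = 0 := by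
  letI : Algebra (Polynomial F) K := (Polynomial.aeval t).toRingHom.toAlgebra
  have halg : ∀ p : Polynomial F, algebraMap (Polynomial F) K p = Polynomial.aeval t p :=
    fun _ => rfl
  haveI : IsScalarTower F (Polynomial F) K := by
    refine IsScalarTower.of_algebraMap_eq fun a => ?_
    rw [halg, Polynomial.algebraMap_apply, Algebra.algebraMap_self_apply, Polynomial.aeval_C]
  have hinj : Function.Injective (algebraMap (Polynomial F) K) :=
    transcendental_iff_injective.1 ht
  haveI : Module.IsTorsionFree (Polynomial F) K :=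
    Module.isTorsionFree_iff_algebraMap_injective.2 hinj
  haveI : Module.Flat (Polynomial F) K := inferInstance
  obtain ⟨Φ, hΦ⟩ : ∃ Φ : K ⊗[Polynomial F] (Polynomial F ⊗[F] κ) ≃ₗ[Polynomial F] K ⊗[F] κ,
      Φ = TensorProduct.AlgebraTensorModule.cancelBaseChange F (Polynomial F) (Polynomial F) K κ :=
    ⟨_, rfl⟩
  obtain ⟨l, hl⟩ : ∃ l : (Polynomial F ⊗[F] κ) →ₗ[Polynomial F] (Polynomial F ⊗[F] κ),
      l = LinearMap.mulLeft (Polynomial F)
        ((Polynomial.X : Polynomial F) ⊗ₜ[F] (1 : κ) - (1 : Polynomial F) ⊗ₜ[F] c) := ⟨_, rfl⟩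
  have hcomm : ∀ w, Φ (l.lTensor K w) = (t ⊗ₜ[F] (1 : κ) - (1 : K) ⊗ₜ[F] c) * Φ w := by
    intro w
    induction w using TensorProduct.induction_on with
    | zero => rw [map_zero, map_zero, mul_zero]
    | add w w' h h' => rw [map_add, map_add, h, h', map_add, mul_add]
    | tmul k w =>
      induction w using TensorProduct.induction_on with
      | zero => rw [TensorProduct.tmul_zero, map_zero, map_zero, mul_zero]
      | add w w' h h' => rw [TensorProduct.tmul_add, map_add, map_add, h, h', map_add, mul_add]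
      | tmul p x =>
        rw [LinearMap.lTensor_tmul, hl, LinearMap.mulLeft_apply, sub_mul,
          Algebra.TensorProduct.tmul_mul_tmul, Algebra.TensorProduct.tmul_mul_tmul,
          TensorProduct.tmul_sub, map_sub, hΦ,
          TensorProduct.AlgebraTensorModule.cancelBaseChange_tmul,
          TensorProduct.AlgebraTensorModule.cancelBaseChange_tmul,
          TensorProduct.AlgebraTensorModule.cancelBaseChange_tmul, sub_mul,
          Algebra.TensorProduct.tmul_mul_tmul, Algebra.TensorProduct.tmul_mul_tmul]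
        simp only [one_mul, Algebra.smul_def, halg, map_mul, Polynomial.aeval_X]
        ring_nf
  have h1 := hcomm (Φ.symm z)
  rw [LinearEquiv.apply_symm_apply, hz, map_eq_zero_iff Φ Φ.injective] at h1
  have h2 : Function.Injective (l.lTensor K) :=
    Module.Flat.lTensor_preserves_injective_linearMap l (by rw [hl]; exact d_inj c)
  rw [map_eq_zero_iff _ h2] at h1
  exact (map_eq_zero_iff Φ.symm Φ.symm.injective).1 h1

theorem gen_nzd {F K κ : Type*} [Field F] [Field K] [Field κ] [Algebra F K] [Algebra F κ] (t : K)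
    (ht : Transcendental F t) (c : κ) :
    (1 : κ) ⊗ₜ[F] t - c ⊗ₜ[F] (1 : K) ∈ nonZeroDivisors (κ ⊗[F] K) := by
  rw [mem_nonZeroDivisors_iff_right]
  intro w hw
  have h1 := congrArg (Algebra.TensorProduct.comm F κ K) hw
  rw [map_mul, map_sub, Algebra.TensorProduct.comm_tmul, Algebra.TensorProduct.comm_tmul,
    map_zero, mul_comm] at h1
  have h2 := gen_nzd' t ht c _ h1
  exact (map_eq_zero_iff _ (Algebra.TensorProduct.comm F κ K).injective).1 h2

end Pool.Agent.H41.TQ
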