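import Pool.Agent.H24.TU.Def
import Pool.Agent.H41.TQ.GenB

/-!
# [H41 TQ GenA] THEOREM Q, chapter (6): a generic point of the fibre of `K / F` through a point

`y : K → κ` a point, `F` a field between `k` and `K`.  There are an extension `j : κ → κ'` and a point `z : K → κ'` which agrees
with `y` on `F`, specialises to `y` over `κ` (`ptI j z ≤ ptI id y`), and is generic: `z t ∉ j κ` for `t` transcendental over `F`.

PROOF.  `κ` is an `F`-algebra through `y`: `letI : Algebra F κ := (y.toRingHom.comp (algebraMap F K)).toAlgebra` (then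
`IsScalarTower k F κ` by `y.commutes`).  `R' = κ ⊗[F] K`, `ev : R' → κ`, `a ⊗ f ↦ a * y f`
(`Algebra.TensorProduct.lift (AlgHom.id F κ) y' _` with `y' : K →ₐ[F] κ` the map `y`).  `ker ev` is prime, so there is a minimal
prime `P ≤ ker ev` of `R'` (`Ideal.exists_minimalPrimes_le` for the ideal `⊥`).  `κ' := FractionRing (R' ⧸ P)`, `j a` = class of
`a ⊗ 1`, `z f` = class of `1 ⊗ f`; `κ'` is a `k`-algebra through `j` (`(j₀.comp (algebraMap k κ)).toAlgebra`), `z` is a `k`-algebra map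
because `1 ⊗ algebraMap k K r = algebraMap k κ r ⊗ 1` in `κ ⊗[F] K`.  For `f ∈ F`: `1 ⊗ f = y f ⊗ 1` in `κ ⊗[F] K`
(`TensorProduct.smul_tmul`).  `ptI j z ≤ ptI id y`: the ring map `κ ⊗[k] K → R'`, `a ⊗ f ↦ a ⊗ f` (`pt` of the two inclusions)
composed with the quotient and `FractionRing` is `pt j z`; so `pt j z g = 0` gives that the image of `g` is in `P ≤ ker ev`
(`IsFractionRing.injective`), and `ev` of it is `pt id y g`.  If `z t = j c` then `1 ⊗ t - c ⊗ 1 ∈ P`; it is a nonzerodivisor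
(`gen_nzd`, `H41/TQ/GenB.lean`), but a minimal prime consists of zero divisors
(`Ideal.disjoint_nonZeroDivisors_of_mem_minimalPrimes` or similar).
-/

set_option autoImplicit false

open scoped TensorProduct

namespace Pool.Agent.H41.TQ

open Pool.Agent.H24.TU

universe u

/-- the generic point, over `F` -/
private theorem gen_aux {F K κ : Type u} [Field F] [Field K] [Field κ] [Algebra F K]
    [Algebra F κ] (ev : κ ⊗[F] K →+* κ) :
    ∃ (κ' : Type u) (_ : Field κ') (Φ : κ ⊗[F] K →+* κ'), (∀ w, Φ w = 0 → ev w = 0) ∧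
      ∀ t : K, Transcendental F t → ∀ c : κ,
        Φ ((1 : κ) ⊗ₜ[F] t - c ⊗ₜ[F] (1 : K)) ≠ 0 := by
  have hprime : (RingHom.ker ev).IsPrime := RingHom.ker_isPrime ev
  obtain ⟨P, hP, hPle⟩ := Ideal.exists_minimalPrimes_le (I := ⊥) (J := RingHom.ker ev) bot_le
  have hPp : P.IsPrime := hP.1.1
  have hdom : IsDomain ((κ ⊗[F] K) ⧸ P) := Ideal.Quotient.isDomain P
  have hker : ∀ w : κ ⊗[F] K, algebraMap ((κ ⊗[F] K) ⧸ P) (FractionRing ((κ ⊗[F] K) ⧸ P))
      (Ideal.Quotient.mk P w) = 0 → w ∈ P := by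
    intro w hw
    rw [← map_zero (algebraMap ((κ ⊗[F] K) ⧸ P) (FractionRing ((κ ⊗[F] K) ⧸ P)))] at hw
    have h1 := IsFractionRing.injective ((κ ⊗[F] K) ⧸ P) (FractionRing ((κ ⊗[F] K) ⧸ P)) hw
    exact Ideal.Quotient.eq_zero_iff_mem.1 h1
  refine ⟨FractionRing ((κ ⊗[F] K) ⧸ P), inferInstance,
    (algebraMap ((κ ⊗[F] K) ⧸ P) (FractionRing ((κ ⊗[F] K) ⧸ P))).comp (Ideal.Quotient.mk P),
    fun w hw => ?_, fun t ht c h0 => ?_⟩
  · exact (RingHom.mem_ker).1 (hPle (hker w hw))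
  · have h1 := hker _ h0
    exact Set.disjoint_left.1 (Ideal.disjoint_nonZeroDivisors_of_mem_minimalPrimes hP) h1
      (gen_nzd t ht c)

theorem exists_gen {k K κ : Type u} [Field k] [Field K] [Field κ] [Algebra k K] [Algebra k κ]
    (F : IntermediateField k K) (y : K →ₐ[k] κ) :
    ∃ (κ' : Type u) (_ : Field κ') (_ : Algebra k κ') (j : κ →ₐ[k] κ') (z : K →ₐ[k] κ'),
      (∀ f ∈ F, z f = j (y f)) ∧ ptI j z ≤ ptI (AlgHom.id k κ) y ∧
      ∀ t : K, Transcendental F t → ∀ c : κ, z t ≠ j c := by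
  letI algF : Algebra F κ := (y.toRingHom.comp (algebraMap F K)).toAlgebra
  have hmap : ∀ f : F, algebraMap F κ f = y (f : K) := fun f => rfl
  let y' : K →ₐ[F] κ := { y.toRingHom with commutes' := fun r => rfl }
  have hy' : ∀ x, y' x = y x := fun x => rfl
  let ev : κ ⊗[F] K →ₐ[F] κ :=
    Algebra.TensorProduct.lift (AlgHom.id F κ) y' (fun _ _ => Commute.all _ _)
  have hev : ∀ (a : κ) (f : K), ev (a ⊗ₜ[F] f) = a * y f := by
    intro a f
    show Algebra.TensorProduct.lift (AlgHom.id F κ) y' _ (a ⊗ₜ[F] f) = _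
    rw [Algebra.TensorProduct.lift_tmul]
    rfl
  obtain ⟨κ', hκ', Φ, hΦ1, hΦ2⟩ := gen_aux (ev : κ ⊗[F] K →+* κ)
  have hmove : ∀ f : F, (1 : κ) ⊗ₜ[F] (f : K) = (y (f : K)) ⊗ₜ[F] (1 : K) := by
    intro f
    have h1 : (f : K) = f • (1 : K) := by
      rw [Algebra.smul_def, mul_one]
      rfl
    have h2 : y (f : K) = f • (1 : κ) := by
      rw [Algebra.smul_def, mul_one]
      rfl
    rw [h2, TensorProduct.smul_tmul, ← h1]
  let jr : κ →+* κ' := Φ.comp (Algebra.TensorProduct.includeLeftRingHom)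
  have hjr : ∀ c, jr c = Φ (c ⊗ₜ[F] (1 : K)) := fun c => rfl
  let zr : K →+* κ' := Φ.comp
    ((Algebra.TensorProduct.includeRight : K →ₐ[F] κ ⊗[F] K) : K →+* κ ⊗[F] K)
  have hzr : ∀ f, zr f = Φ ((1 : κ) ⊗ₜ[F] f) := fun f => rfl
  letI algk : Algebra k κ' := (jr.comp (algebraMap k κ)).toAlgebra
  let j : κ →ₐ[k] κ' := { jr with commutes' := fun r => rfl }
  let z : K →ₐ[k] κ' :=
    { zr with
      commutes' := fun r => by
        have h1 : zr (algebraMap k K r) = jr (algebraMap k κ r) := by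
          have h2 : algebraMap k K r = ((algebraMap k F r : F) : K) := rfl
          rw [h2, hzr, hmove, ← hjr, ← h2, y.commutes]
        exact h1 }
  have hj : ∀ c, j c = Φ (c ⊗ₜ[F] (1 : K)) := fun c => rfl
  have hz : ∀ f, z f = Φ ((1 : κ) ⊗ₜ[F] f) := fun f => rfl
  refine ⟨κ', hκ', algk, j, z, fun f hf => ?_, ?_, fun t ht c h0 => ?_⟩
  · rw [hz, hj]
    exact congrArg Φ (hmove ⟨f, hf⟩)
  · intro g hg
    rw [mem_ptI] at hg ⊢
    have key : ∀ g : κ ⊗[k] K, ∃ w : κ ⊗[F] K, Φ w = pt j z g ∧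
        ev w = pt (AlgHom.id k κ) y g := by
      intro g
      induction g using TensorProduct.induction_on with
      | zero => exact ⟨0, by rw [map_zero, map_zero], by rw [map_zero, map_zero]⟩
      | tmul a f =>
        refine ⟨a ⊗ₜ[F] f, ?_, ?_⟩
        · rw [pt_tmul, hj, hz, ← map_mul, Algebra.TensorProduct.tmul_mul_tmul, mul_one, one_mul]
        · rw [pt_tmul, hev]
          rfl
      | add g g' h1 h2 =>
        obtain ⟨w, hw1, hw2⟩ := h1
        obtain ⟨w', hw1', hw2'⟩ := h2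
        exact ⟨w + w', by rw [map_add, map_add, hw1, hw1'], by rw [map_add, map_add, hw2, hw2']⟩
    obtain ⟨w, hw1, hw2⟩ := key g
    rw [← hw2]
    exact hΦ1 w (by rw [hw1, hg])
  · refine hΦ2 t ht c ?_
    rw [map_sub, ← hz, ← hj, h0, sub_self]

end Pool.Agent.H41.TQ
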