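import Pool.Agent.H24.TU.OrdB
import Pool.Agent.H24.TU.DerEx

/-!
# [H41 TQ Jet] THEOREM Q, chapter (6): jets at the diagonal, transcendence degree two

`trdeg K / k = 2`, characteristic `0` (`k` need not be algebraically closed).  A `K`-subspace `V` of `K ⊗ K` (left factor) in which
only `0` has order at least `r` at the diagonal has dimension at most `(r + 1).choose 2`.

PROOF.  A transcendence basis `c : Fin 2 → K` (see `exists_coord`, `coo_of_basis` in `H24/TU/Coo.lean`) and its dual derivations
`d i` (`exists_derivation`).  They commute: `D f := d 0 (d 1 f) - d 1 (d 0 f)` is a derivation (the commutator `⁅d 0, d 1⁆`), it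
vanishes at the `c i`, so it is `0` (`derivation_eq_zero`).  So `dK K (d 0)` and `dK K (d 1)` commute (on `x ⊗ f`; induction on tensors).
For `g ∈ K ⊗ K` and `(i, j)` let `ev i j g := pt id id ((dK (d 0))^i ((dK (d 1))^j g))`, `K`-linear in `g` for the left factor
(`dK K δ` is a `Derivation K _ _`, `pt id id` maps `(a ⊗ 1) * g` to `a * pt id id g`).
CLAIM: `ev i j g = 0` for all `i + j < r` implies `OrdGE (dI k K) r g`.  Induction on `r`: `r = 0` trivial.  `r + 1`: `g ∈ dI`
(`(i, j) = (0, 0)`, `mem_ptI`); for `δ` we have `δ = ∑ i, δ (c i) • d i` (`derivation_eq_zero` for the difference), so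
`dK K δ g = ∑ i, (1 ⊗ δ (c i)) * dK K (d i) g` (induction on tensors), and `OrdGE r (dK K (d i) g)` by the induction hypothesis
(the derivations commute: `ev i j (dK (d 1) g) = ev i (j+1) g`, `ev i j (dK (d 0) g) = ev (i+1) j g`); `OrdGE_mul_left`, `OrdGE_add`.
So the `K`-linear map `V → ({p ∈ Finset.range r ×ˢ Finset.range r | p.1 + p.2 < r} → K)`, `g ↦ (ev i j g)`, is injective (`hV`), and
the index set has `(r + 1).choose 2` elements (`Finset.range r` fibred over `p.1`: `∑ i ∈ range r, (r - i)`;
`Finset.sum_range_reflect`, `Finset.sum_range_id_mul_two`, or an induction on `r`; compare `card_degree_le` in `H24/TU/Cmp.lean`).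
`LinearMap.finrank_le_finrank_of_injective`, `Module.finrank_fintype_fun_eq_card`.  (An equivalent index type is fine, e.g.
`Σ n : Fin r, Fin (n + 1)` with `(i, j) = (j', n - j')`.)
-/

set_option autoImplicit false

open scoped TensorProduct

namespace Pool.Agent.H41.TQ

open Pool.Agent.H24.TU

universe u

private theorem jet_coord {k K : Type u} [Field k] [CharZero k] [Field K] [Algebra k K]
    (htr : Algebra.trdeg k K = 2) :
    ∃ (c : Fin 2 → K) (d : Fin 2 → Derivation k K K), IsTranscendenceBasis k c ∧
      ∀ i j, d i (c j) = if i = j then 1 else 0 := by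
  obtain ⟨ι, x, hx⟩ := exists_isTranscendenceBasis' k K
  have h1 : Cardinal.mk ι = ((2 : ℕ) : Cardinal.{u}) := by
    rw [hx.cardinalMk_eq_trdeg, htr]
    rfl
  obtain ⟨e⟩ := Cardinal.mk_eq_nat_iff.1 h1
  have hc := hx.comp_equiv e.symm
  choose D hD using fun i : Fin 2 =>
    exists_derivation hc (M := K) (fun j => if i = j then (1 : K) else 0)
  exact ⟨_, D, hc, hD⟩

private theorem jet_comm {k K : Type u} [Field k] [CharZero k] [Field K] [Algebra k K]
    {c : Fin 2 → K} {d : Fin 2 → Derivation k K K} (hc : IsTranscendenceBasis k c)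
    (hd : ∀ i j, d i (c j) = if i = j then 1 else 0) (f : K) : d 0 (d 1 f) = d 1 (d 0 f) := by
  have h1 : ⁅d 0, d 1⁆ = 0 := by
    apply derivation_eq_zero hc
    intro i
    rw [Derivation.commutator_apply, hd, hd]
    have h2 : ∀ (p : Prop) [Decidable p] (δ : Derivation k K K),
        δ (if p then (1 : K) else 0) = 0 := by
      intro p _ δ
      split_ifs
      · exact δ.map_one_eq_zero
      · exact map_zero δ
    rw [h2, h2, sub_zero]
  have h3 := congrArg (fun E : Derivation k K K => E f) h1
  have h4 : d 0 (d 1 f) - d 1 (d 0 f) = 0 := by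
    rw [← Derivation.commutator_apply]
    exact h3
  exact sub_eq_zero.1 h4

/-- `K`-linear evaluation at the diagonal -/
private noncomputable def jet_ev (k K : Type u) [Field k] [Field K] [Algebra k K] :
    (K ⊗[k] K) →ₗ[K] K where
  toFun := pt (AlgHom.id k K) (AlgHom.id k K)
  map_add' := fun x y => map_add _ x y
  map_smul' := by
    intro a x
    induction x using TensorProduct.induction_on with
    | zero => rw [smul_zero, map_zero, smul_zero]
    | add x y hx hy => rw [smul_add, map_add, hx, hy, map_add, smul_add]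
    | tmul x f =>
      rw [TensorProduct.smul_tmul', pt_tmul, pt_tmul, smul_eq_mul, RingHom.id_apply, smul_eq_mul]
      simp only [AlgHom.coe_id, id_eq]
      ring

private theorem jet_dK {k K : Type u} [Field k] [CharZero k] [Field K] [Algebra k K]
    {c : Fin 2 → K} {d : Fin 2 → Derivation k K K} (hc : IsTranscendenceBasis k c)
    (hd : ∀ i j, d i (c j) = if i = j then 1 else 0) (δ : Derivation k K K) (g : K ⊗[k] K) :
    dK K δ g = ((1 : K) ⊗ₜ[k] δ (c 0)) * dK K (d 0) g + ((1 : K) ⊗ₜ[k] δ (c 1)) * dK K (d 1) g := by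
  have h1 : δ - (δ (c 0) • d 0 + δ (c 1) • d 1) = 0 := by
    apply derivation_eq_zero hc
    intro i
    rw [Derivation.sub_apply, Derivation.add_apply, Derivation.smul_apply, Derivation.smul_apply,
      hd, hd]
    fin_cases i <;> simp
  have h2 : ∀ f, δ f = δ (c 0) * d 0 f + δ (c 1) * d 1 f := by
    intro f
    have h3 := congrArg (fun E : Derivation k K K => E f) h1
    have h4 : δ f - (δ (c 0) * d 0 f + δ (c 1) * d 1 f) = 0 := h3
    exact sub_eq_zero.1 h4
  induction g using TensorProduct.induction_on with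
  | zero => simp
  | add a b ha hb =>
    rw [map_add, map_add, map_add, ha, hb]
    ring
  | tmul x f =>
    rw [dK_tmul, dK_tmul, dK_tmul, Algebra.TensorProduct.tmul_mul_tmul,
      Algebra.TensorProduct.tmul_mul_tmul, one_mul, ← TensorProduct.tmul_add, ← h2]

private theorem jet_claim {k K : Type u} [Field k] [CharZero k] [Field K] [Algebra k K]
    {c : Fin 2 → K} {d : Fin 2 → Derivation k K K} (hc : IsTranscendenceBasis k c)
    (hd : ∀ i j, d i (c j) = if i = j then 1 else 0) (r : ℕ) :
    ∀ g : K ⊗[k] K, (∀ i j : ℕ, i + j < r →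
      jet_ev k K (((dK K (d 0)).toLinearMap ^ i) (((dK K (d 1)).toLinearMap ^ j) g)) = 0) →
      OrdGE (dI k K) r g := by
  have hcomm : Commute ((dK K (d 0)).toLinearMap : Module.End K (K ⊗[k] K))
      ((dK K (d 1)).toLinearMap) := by
    apply LinearMap.ext
    intro g
    show dK K (d 0) (dK K (d 1) g) = dK K (d 1) (dK K (d 0) g)
    induction g using TensorProduct.induction_on with
    | zero => simp
    | add a b ha hb => simp only [map_add, ha, hb]
    | tmul x f => rw [dK_tmul, dK_tmul, dK_tmul, dK_tmul, jet_comm hc hd]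
  induction r with
  | zero => intro g _; trivial
  | succ r ih =>
    intro g hg
    refine ⟨?_, fun δ => ?_⟩
    · exact mem_ptI.2 (hg 0 0 (by omega))
    · rw [jet_dK hc hd δ g]
      refine OrdGE_add (OrdGE_mul_left _ (ih _ ?_)) (OrdGE_mul_left _ (ih _ ?_))
      · intro i j hij
        have h1 := hg (i + 1) j (by omega)
        have h2 : ((dK K (d 0)).toLinearMap ^ i) (((dK K (d 1)).toLinearMap ^ j) (dK K (d 0) g)) =
            ((dK K (d 0)).toLinearMap ^ (i + 1)) (((dK K (d 1)).toLinearMap ^ j) g) := by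
          have h3 : ((dK K (d 1)).toLinearMap ^ j) (dK K (d 0) g) =
              (dK K (d 0)).toLinearMap (((dK K (d 1)).toLinearMap ^ j) g) := by
            have h4 := (hcomm.pow_right j).eq
            exact (congrArg (fun E : Module.End K (K ⊗[k] K) => E g) h4).symm
          rw [h3, pow_succ]
          rfl
        rw [h2]
        exact h1
      · intro i j hij
        have h1 := hg i (j + 1) (by omega)
        rw [pow_succ (dK K (d 1)).toLinearMap j] at h1
        exact h1

private theorem jet_sum (r : ℕ) : ∑ n : Fin r, ((n : ℕ) + 1) = (r + 1).choose 2 := by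
  rw [Fin.sum_univ_eq_sum_range (fun n => n + 1) r]
  induction r with
  | zero => rfl
  | succ r ih =>
    have h : (r + 1 + 1).choose 2 = (r + 1).choose 1 + (r + 1).choose 2 :=
      Nat.choose_succ_succ' (r + 1) 1
    rw [Finset.sum_range_succ, ih, h, Nat.choose_one_right]
    omega

theorem jet_two {k K : Type u} [Field k] [CharZero k] [Field K] [Algebra k K] (htr : Algebra.trdeg k K = 2)
    (V : Submodule K (K ⊗[k] K)) (r : ℕ) (hV : ∀ g ∈ V, OrdGE (dI k K) r g → g = 0) :
    Module.finrank K V ≤ (r + 1).choose 2 := by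
  obtain ⟨c, d, hc, hd⟩ := jet_coord htr
  let φ : V →ₗ[K] ((Σ n : Fin r, Fin ((n : ℕ) + 1)) → K) := LinearMap.pi fun p =>
    jet_ev k K ∘ₗ ((dK K (d 0)).toLinearMap ^ (p.2 : ℕ)) ∘ₗ
      ((dK K (d 1)).toLinearMap ^ ((p.1 : ℕ) - (p.2 : ℕ))) ∘ₗ V.subtype
  have hinj : Function.Injective φ := by
    rw [← LinearMap.ker_eq_bot, Submodule.eq_bot_iff]
    intro g hg
    apply Subtype.ext
    refine hV g g.2 (jet_claim hc hd r g ?_)
    intro i j hij
    have h1 := congrFun (LinearMap.mem_ker.1 hg) ⟨⟨i + j, hij⟩, ⟨i, by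
      show i < i + j + 1
      omega⟩⟩
    have h2 : jet_ev k K (((dK K (d 0)).toLinearMap ^ i)
        (((dK K (d 1)).toLinearMap ^ (i + j - i)) (g : K ⊗[k] K))) = 0 := h1
    rwa [Nat.add_sub_cancel_left] at h2
  have h3 := LinearMap.finrank_le_finrank_of_injective hinj
  rw [Module.finrank_fintype_fun_eq_card, Fintype.card_sigma] at h3
  simp only [Fintype.card_fin] at h3
  rwa [jet_sum] at h3

end Pool.Agent.H41.TQ
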