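import Mathlib

/-!
# [H41 TQ Wrk] THEOREM Q, chapter (6): the Wronskian matrix is invertible (Mathlib only)

`D` a derivation of the field `K`, `e_0, .., e_(u-1)` elements of `K` which are linearly independent over the constants of
`D` (`he`).  Then the matrix `(D^j e_l)`, `j, l < u`, is invertible, so it stays invertible after a homomorphism
`y : K → Om` of fields: `∑ l, b l * y (D^j (e l)) = 0` for all `j < u` implies `b = 0`.

PROOF.  First for `y = id` (`Om = K`), by induction on `u`, for all `e`.  `u = 0`: nothing.  Step `u + 1`, suppose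
`∑ l, b l * D^j (e l) = 0` for `j < u + 1`, and put `l₀ = Fin.last u`.  If `b l₀ = 0` the sums run over `Fin.castSucc`, the induction
hypothesis (for `e ∘ castSucc`, which satisfies `he`: extend constants by `0`, `Fin.snoc`/`Fin.lastCases`) gives `b = 0`.  If
`b l₀ ≠ 0` divide by it: `b l₀ = 1`.  Apply `D` to the relation `j` (`j < u`): `∑ D (b l) * D^j (e l) + ∑ b l * D^(j+1) (e l) = 0`, and the
second sum vanishes (`j + 1 < u + 1`), `D (b l₀) = D 1 = 0`: the induction hypothesis gives `D (b l) = 0` for all
`l = castSucc _`.  So all `b l` are constants and `∑ b l * e l = 0` (`j = 0`): `he` gives `b = 0`, against `b l₀ = 1`.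
(`Function.iterate_succ_apply'`: `D^[j+1] e = D (D^[j] e)`.)
In general: `W : Matrix (Fin u) (Fin u) K`, `W j l = D^j (e l)`.  The case `y = id` says that `W.mulVec b = 0` implies `b = 0`, so
`W.det ≠ 0` (`Matrix.exists_mulVec_eq_zero_iff`); `(W.map y).det = y W.det ≠ 0` (`RingHom.map_det`), so
`(W.map y).mulVec b = 0` implies `b = 0` (the same lemma).
-/

set_option autoImplicit false

namespace Pool.Agent.H41.TQ

private theorem wrk_id {k K : Type*} [Field k] [Field K] [Algebra k K] (D : Derivation k K K) :
    ∀ (u : ℕ) (e : Fin u → K)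
      (_ : ∀ b : Fin u → K, (∀ l, D (b l) = 0) → ∑ l, b l * e l = 0 → b = 0)
      (b : Fin u → K), (∀ j < u, ∑ l, b l * ((fun f => D f)^[j] (e l)) = 0) → b = 0 := by
  intro u
  induction u with
  | zero =>
    intro e _ b _
    funext l
    exact l.elim0
  | succ u ih =>
    intro e he b hb
    -- the induction hypothesis for the first elements
    have he' : ∀ c : Fin u → K, (∀ l, D (c l) = 0) → ∑ l, c l * e (Fin.castSucc l) = 0 → c = 0 := by
      intro c hc hc'
      have h1 := he (Fin.snoc c 0) (fun l => by
        refine Fin.lastCases ?_ (fun l => ?_) l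
        · rw [Fin.snoc_last, map_zero]
        · rw [Fin.snoc_castSucc]
          exact hc l) (by
        rw [Fin.sum_univ_castSucc]
        simp only [Fin.snoc_castSucc, Fin.snoc_last, zero_mul, add_zero]
        exact hc')
      funext l
      have h2 := congrFun h1 (Fin.castSucc l)
      rw [Fin.snoc_castSucc] at h2
      exact h2
    by_cases h0 : b (Fin.last u) = 0
    · have h1 := ih (fun l => e (Fin.castSucc l)) he' (fun l => b (Fin.castSucc l)) (fun j hj => by
        have h2 := hb j (by omega)
        rw [Fin.sum_univ_castSucc, h0, zero_mul, add_zero] at h2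
        exact h2)
      funext l
      refine Fin.lastCases ?_ (fun l => ?_) l
      · exact h0
      · exact congrFun h1 l
    · exfalso
      -- divide by the last coefficient
      obtain ⟨c, hc⟩ : ∃ c : Fin (u + 1) → K, c = fun l => (b (Fin.last u))⁻¹ * b l := ⟨_, rfl⟩
      have hcl : c (Fin.last u) = 1 := by
        rw [hc]
        exact inv_mul_cancel₀ h0
      have hcj : ∀ j < u + 1, ∑ l, c l * ((fun f => D f)^[j] (e l)) = 0 := by
        intro j hj
        have h1 := hb j hj
        have h2 : ∑ l, c l * ((fun f => D f)^[j] (e l)) =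
            (b (Fin.last u))⁻¹ * ∑ l, b l * ((fun f => D f)^[j] (e l)) := by
          rw [Finset.mul_sum]
          refine Finset.sum_congr rfl fun l _ => ?_
          rw [hc, mul_assoc]
        rw [h2, h1, mul_zero]
      have hDc : ∀ j < u, ∑ l : Fin u, D (c (Fin.castSucc l)) *
          ((fun f => D f)^[j] (e (Fin.castSucc l))) = 0 := by
        intro j hj
        have h1 := congrArg D (hcj j (by omega))
        rw [map_zero, map_sum] at h1
        have h2 : ∀ l, D (c l * ((fun f => D f)^[j] (e l))) =
            D (c l) * ((fun f => D f)^[j] (e l)) + c l * ((fun f => D f)^[j + 1] (e l)) := by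
          intro l
          rw [D.leibniz, Function.iterate_succ_apply', smul_eq_mul, smul_eq_mul]
          ring
        rw [Finset.sum_congr rfl fun l _ => h2 l, Finset.sum_add_distrib, hcj (j + 1) (by omega),
          add_zero, Fin.sum_univ_castSucc, hcl, Derivation.map_one_eq_zero, zero_mul, add_zero] at h1
        exact h1
      have h3 := ih (fun l => e (Fin.castSucc l)) he' (fun l => D (c (Fin.castSucc l))) hDc
      have h4 : c = 0 := by
        refine he c (fun l => ?_) ?_
        · refine Fin.lastCases ?_ (fun l => ?_) l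
          · rw [hcl, Derivation.map_one_eq_zero]
          · exact congrFun h3 l
        · have h5 := hcj 0 (by omega)
          simpa using h5
      have h5 := congrFun h4 (Fin.last u)
      rw [hcl] at h5
      exact one_ne_zero h5

theorem wrk_inj {k K : Type*} [Field k] [Field K] [Algebra k K] (D : Derivation k K K) {u : ℕ} (e : Fin u → K)
    (he : ∀ b : Fin u → K, (∀ l, D (b l) = 0) → ∑ l, b l * e l = 0 → b = 0)
    {Om : Type*} [Field Om] (y : K →+* Om) (b : Fin u → Om)
    (hb : ∀ j < u, ∑ l, b l * y ((fun f => D f)^[j] (e l)) = 0) : b = 0 := by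
  classical
  obtain ⟨W, hW⟩ : ∃ W : Matrix (Fin u) (Fin u) K,
      W = Matrix.of fun (j : Fin u) (l : Fin u) => (fun f => D f)^[(j : ℕ)] (e l) := ⟨_, rfl⟩
  have hdet : W.det ≠ 0 := by
    intro h0
    obtain ⟨v, hv, hv'⟩ := Matrix.exists_mulVec_eq_zero_iff.2 h0
    refine hv (wrk_id D u e he v fun j hj => ?_)
    have h1 := congrFun hv' ⟨j, hj⟩
    rw [hW, Matrix.mulVec, dotProduct] at h1
    rw [← Pi.zero_apply (M := fun _ : Fin u => K) (⟨j, hj⟩ : Fin u), ← h1]
    refine Finset.sum_congr rfl fun l _ => ?_
    rw [Matrix.of_apply, mul_comm]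
  by_contra hb0
  have h1 : (W.map y).det = 0 := by
    refine Matrix.exists_mulVec_eq_zero_iff.1 ⟨b, hb0, ?_⟩
    funext j
    rw [Matrix.mulVec, dotProduct, Pi.zero_apply, ← hb j j.2]
    refine Finset.sum_congr rfl fun l _ => ?_
    rw [Matrix.map_apply, hW, Matrix.of_apply, mul_comm]
  have h2 : y W.det = (W.map y).det := RingHom.map_det y W
  rw [h1] at h2
  exact hdet ((map_eq_zero y).1 h2)

end Pool.Agent.H41.TQ
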