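import Pool.Agent.H24.TU.OrdB
import Pool.Agent.H41.TQ.Wrk

/-!
# [H41 TQ StA] THEOREM Q, chapter (6a): the Wronskian step

`D` a derivation of `K`, `e_0, .., e_(u-1)` independent over the constants of `D` (`he`), every `f ∈ L_n` is a combination of the
`e_l` with constant coefficients (`hS`); `y, z : K → Om` agree on the constants.  If `g ∈ M_n` (coefficients in `X`) has order
at least `u` at the point `ptI a y` then `g` vanishes at `ptI a z`.

PROOF.  `g = ∑ j, c j ⊗ f j`, a finite sum with `c j ∈ X`, `f j ∈ L_n` (`S.M X n` is spanned by the `1 ⊗ f`; e.g. use a finite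
`k`-basis of `S.L n` as `tr_repr` in `H24/TU/Trans.lean`, or span induction for the statement `∃ m (c : Fin m → X) (f : Fin m → K), ..`).
`f j = ∑ l, φ j l * e l`, `D (φ j l) = 0`.  So `D^i (f j) = ∑ l, φ j l * D^i (e l)` (induction on `i`).  `(dK X D)^i g =
∑ j, c j ⊗ D^i (f j)` (`dK_tmul`), and it is in `ptI a y` for `i < u`: `OrdGE Q u g` gives by induction on `i` that
`OrdGE Q (u - i) ((dK X D)^i g)`, so `(dK X D)^i g ∈ Q` for `i < u`.  Hence `∑ l, b l * y (D^i (e l)) = 0` for `i < u`, where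
`b l := ∑ j, a (c j) * y (φ j l)`.  `wrk_inj` (`H41/TQ/Wrk.lean`): `b = 0`.  At last `pt a z g = ∑ j, a (c j) * z (f j) =
∑ l, (∑ j, a (c j) * z (φ j l)) * z (e l) = ∑ l, b l * z (e l) = 0`, because `z (φ j l) = y (φ j l)`.
-/

set_option autoImplicit false

open scoped TensorProduct

namespace Pool.Agent.H41.TQ

open Pool.Agent.H24.TU

universe u

variable {k X K Om : Type u} [Field k] [Field X] [Field K] [Field Om] [Algebra k X] [Algebra k K] [Algebra k Om]

private theorem ordGE_iter {Q : Ideal (X ⊗[k] K)} (D : Derivation k K K) {m : ℕ}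
    {g : X ⊗[k] K} (h : OrdGE Q m g) {i : ℕ} (hi : i < m) :
    (fun w => dK X D w)^[i] g ∈ Q := by
  induction i generalizing m g with
  | zero =>
    obtain ⟨m', rfl⟩ : ∃ m', m = m' + 1 := ⟨m - 1, by omega⟩
    exact h.1
  | succ i ih =>
    obtain ⟨m', rfl⟩ : ∃ m', m = m' + 1 := ⟨m - 1, by omega⟩
    rw [Function.iterate_succ_apply]
    exact ih (h.2 D) (by omega)

private theorem iter_tmul (D : Derivation k K K) (x : X) (f : K) (i : ℕ) :
    (fun w => dK X D w)^[i] (x ⊗ₜ[k] f) = x ⊗ₜ[k] ((fun f => D f)^[i] f) := by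
  induction i with
  | zero => rfl
  | succ i ih => rw [Function.iterate_succ_apply', Function.iterate_succ_apply', ih, dK_tmul]

private theorem iter_const (D : Derivation k K K) {u : ℕ} (e φ : Fin u → K)
    (hφ : ∀ l, D (φ l) = 0) (i : ℕ) :
    (fun f => D f)^[i] (∑ l, φ l * e l) = ∑ l, φ l * (fun f => D f)^[i] (e l) := by
  induction i with
  | zero => rfl
  | succ i ih =>
    rw [Function.iterate_succ_apply', ih, map_sum]
    refine Finset.sum_congr rfl fun l _ => ?_
    rw [Function.iterate_succ_apply', Derivation.leibniz, hφ l, smul_zero, add_zero, smul_eq_mul]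

private theorem iter_add (D : Derivation k K K) (g g' : X ⊗[k] K) (i : ℕ) :
    (fun w => dK X D w)^[i] (g + g') =
      (fun w => dK X D w)^[i] g + (fun w => dK X D w)^[i] g' := by
  induction i with
  | zero => rfl
  | succ i ih =>
    rw [Function.iterate_succ_apply', Function.iterate_succ_apply', Function.iterate_succ_apply',
      ih, map_add]

private theorem iter_smul (D : Derivation k K K) (x : X) (g : X ⊗[k] K) (i : ℕ) :
    (fun w => dK X D w)^[i] (x • g) = x • (fun w => dK X D w)^[i] g := by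
  induction i with
  | zero => rfl
  | succ i ih =>
    rw [Function.iterate_succ_apply', Function.iterate_succ_apply', ih, Derivation.map_smul]

private theorem iter_zero (D : Derivation k K K) (i : ℕ) :
    (fun w => dK X D w)^[i] (0 : X ⊗[k] K) = 0 := by
  induction i with
  | zero => rfl
  | succ i ih => rw [Function.iterate_succ_apply', ih, map_zero]

private theorem pt_smul' (a : X →ₐ[k] Om) (y : K →ₐ[k] Om) (x : X) (g : X ⊗[k] K) :
    pt a y (x • g) = a x * pt a y g := by
  have h1 : x • g = (x ⊗ₜ[k] (1 : K)) * g := by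
    rw [Algebra.smul_def]
    rfl
  rw [h1, map_mul, pt_tmul, map_one, mul_one]

theorem wr_step (S : GSys k K) (D : Derivation k K K) {u : ℕ} (e : Fin u → K)
    (he : ∀ b : Fin u → K, (∀ l, D (b l) = 0) → ∑ l, b l * e l = 0 → b = 0) (n : ℕ)
    (hS : ∀ f ∈ S.L n, ∃ φ : Fin u → K, (∀ l, D (φ l) = 0) ∧ f = ∑ l, φ l * e l)
    (a : X →ₐ[k] Om) (y z : K →ₐ[k] Om) (hyz : ∀ f : K, D f = 0 → y f = z f)
    {g : X ⊗[k] K} (hg : g ∈ S.M X n) (h : OrdGE (ptI a y) u g) : g ∈ ptI a z := by
  have key : ∃ b : Fin u → Om,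
      (∀ i, pt a y ((fun w => dK X D w)^[i] g) = ∑ l, b l * y ((fun f => D f)^[i] (e l))) ∧
      pt a z g = ∑ l, b l * z (e l) := by
    unfold GSys.M at hg
    rw [Submodule.baseChange_eq_span] at hg
    clear h
    induction hg using Submodule.span_induction with
    | mem g hg =>
      obtain ⟨f, hf, rfl⟩ := hg
      obtain ⟨φ, hφ, rfl⟩ := hS f hf
      refine ⟨fun l => y (φ l), fun i => ?_, ?_⟩
      · have h1 : (TensorProduct.mk k X K 1) (∑ l, φ l * e l) =
          (1 : X) ⊗ₜ[k] (∑ l, φ l * e l) := rfl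
        rw [h1, iter_tmul, pt_tmul, map_one, one_mul, iter_const D e φ hφ, map_sum]
        exact Finset.sum_congr rfl fun l _ => map_mul y _ _
      · have h1 : (TensorProduct.mk k X K 1) (∑ l, φ l * e l) =
          (1 : X) ⊗ₜ[k] (∑ l, φ l * e l) := rfl
        rw [h1, pt_tmul, map_one, one_mul, map_sum]
        refine Finset.sum_congr rfl fun l _ => ?_
        rw [map_mul, ← hyz _ (hφ l)]
    | zero =>
      refine ⟨0, fun i => ?_, ?_⟩
      · rw [iter_zero, map_zero]
        simp
      · rw [map_zero]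
        simp
    | add g g' _ _ h1 h2 =>
      obtain ⟨b, hb1, hb2⟩ := h1
      obtain ⟨b', hb1', hb2'⟩ := h2
      refine ⟨b + b', fun i => ?_, ?_⟩
      · rw [iter_add, map_add, hb1, hb1', ← Finset.sum_add_distrib]
        exact Finset.sum_congr rfl fun l _ => (add_mul _ _ _).symm
      · rw [map_add, hb2, hb2', ← Finset.sum_add_distrib]
        exact Finset.sum_congr rfl fun l _ => (add_mul _ _ _).symm
    | smul x g _ h1 =>
      obtain ⟨b, hb1, hb2⟩ := h1
      refine ⟨fun l => a x * b l, fun i => ?_, ?_⟩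
      · rw [iter_smul, pt_smul', hb1, Finset.mul_sum]
        exact Finset.sum_congr rfl fun l _ => (mul_assoc _ _ _).symm
      · rw [pt_smul', hb2, Finset.mul_sum]
        exact Finset.sum_congr rfl fun l _ => (mul_assoc _ _ _).symm
  obtain ⟨b, hb1, hb2⟩ := key
  have hb : b = 0 := by
    refine wrk_inj D e he (y : K →+* Om) b fun j hj => ?_
    have h1 := hb1 j
    rw [mem_ptI.1 (ordGE_iter D h hj)] at h1
    exact h1.symm
  rw [mem_ptI, hb2, hb]
  simp

end Pool.Agent.H41.TQ
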