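import Pool.Agent.H24.TU.LemS
import Pool.Agent.H41.TQ.StA

/-!
# [H41 TQ StB] THEOREM Q, chapter (6a): the loss of order along a fibre

Same hypotheses as `wr_step`.  Order at least `r + u` at `ptI a y` implies order at least `r + 1` at `ptI a z`.

PROOF.  Show `SmGE (ptI a z) (r + 1) g` and use `ordGE_of_smGE` (`H24/TU/LemS.lean`).  Induction on `r` for all `g ∈ M_n`:
`g ∈ ptI a z` by `wr_step` (`OrdGE_mono`: `u ≤ r + u`); `r = 0`: the rest is trivial; `r + 1`: for every coefficient derivation `θ`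
`dX K θ g ∈ S.M X n` (`M_dX`), `OrdGE (ptI a y) (r + u) (dX K θ g)` (`ordGE_dX`; `r + 1 + u = (r + u) + 1`), so
`SmGE (ptI a z) (r + 1) (dX K θ g)` by induction.
-/

set_option autoImplicit false

open scoped TensorProduct

namespace Pool.Agent.H41.TQ

open Pool.Agent.H24.TU

universe u

variable {k X K Om : Type u} [Field k] [Field X] [Field K] [Field Om] [Algebra k X] [Algebra k K] [Algebra k Om]

theorem ord_step [CharZero k] [Algebra.EssFiniteType k X] [Algebra.EssFiniteType k K] (S : GSys k K)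
    (D : Derivation k K K) {u : ℕ} (e : Fin u → K)
    (he : ∀ b : Fin u → K, (∀ l, D (b l) = 0) → ∑ l, b l * e l = 0 → b = 0) (n : ℕ)
    (hS : ∀ f ∈ S.L n, ∃ φ : Fin u → K, (∀ l, D (φ l) = 0) ∧ f = ∑ l, φ l * e l)
    (a : X →ₐ[k] Om) (y z : K →ₐ[k] Om) (hyz : ∀ f : K, D f = 0 → y f = z f)
    (r : ℕ) {g : X ⊗[k] K} (hg : g ∈ S.M X n) (h : OrdGE (ptI a y) (r + u) g) : OrdGE (ptI a z) (r + 1) g := by
  have key : ∀ (r : ℕ) (g : X ⊗[k] K), g ∈ S.M X n → OrdGE (ptI a y) (r + u) g → SmGE (ptI a z) (r + 1) g := by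
    intro r
    induction r with
    | zero =>
      intro g hg h
      exact ⟨wr_step S D e he n hS a y z hyz hg (OrdGE_mono (by omega) h), fun _ => trivial⟩
    | succ r ih =>
      intro g hg h
      refine ⟨wr_step S D e he n hS a y z hyz hg (OrdGE_mono (by omega) h), fun θ => ?_⟩
      refine ih _ (M_dX S hg θ) (ordGE_dX inferInstance (r + u) ?_ θ)
      rwa [show r + u + 1 = r + 1 + u by omega]
  exact ordGE_of_smGE inferInstance (r + 1) (key r g hg h)

end Pool.Agent.H41.TQ
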