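import Pool.Agent.H41.TQ.Cst
import Pool.Agent.H41.TQ.Bas
import Pool.Agent.H41.TQ.StB
import Pool.Agent.H41.TQ.Jet
import Pool.Agent.H41.TQ.ExtS

/-!
# [H41 TQ Rel] THEOREM Q, chapter (6d): the bound over the field `L`

`L ≤ F`, `L ≤ F'`, `trdeg_L K = 2`, `F` and `F'` algebraically closed in `K` with `trdeg_F K = trdeg_F' K = 1`; points `z0, z1, z2 : K → Om`
with `z0 = z1` on `F`, `z1 = z2` on `F'` and `(z0, z2)` injective on `K ⊗[L] K` (`hinj`).  Then
`dim_L (L L_n) ≤ (dim_F (F L_n) + dim_F' (F' L_n) + 1).choose 2`.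

PROOF.  Base field `L`: `letI : Algebra L Om := (z0.toRingHom.comp (algebraMap L K)).toAlgebra`; `z0`, `z1`, `z2` are `L`-algebra maps
`w0 w1 w2 : K →ₐ[L] Om` (they agree on `L`).  `CharZero L`, `Algebra.EssFiniteType L K` (`Algebra.EssFiniteType.of_comp k L K`).
`S' := extS S L` (`H41/TQ/ExtS.lean`), `V := S'.M K n`, `finrank K V = finrank L (S'.L n)` (`finrank_M`, `H24/TU/OrdB.lean`).
`jet_two` (base field `L`) with `r = u + u'`, `u := finrank F (span F (S.L n))`, `u'` likewise: we have to show that `g ∈ V` with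
`OrdGE (dI L K) (u + u') g` is `0`.  `dI L K = ptI w0 w0` (`pt w0 w0 g = w0 (pt id id g)`, `w0` injective), so
`OrdGE (ptI w0 w0) (u' + u) g`.  `exists_der` for `F`: `D`, `derL L F hLF D` (`H41/TQ/Bas.lean`) is an `L`-derivation with
constants `F`; `exists_basis` for `F`: `e` with `he` and `hS` (for `f ∈ S'.L n = span L (S.L n) ≤ span F (S.L n)`: span induction).
`ord_step` (`X = K`, `a = y = w0`, `z = w1`, `r = u'`): `OrdGE (ptI w0 w1) (u' + 1) g`; `OrdGE_mono` and `wr_step` for `F'`
(`y = w1`, `z = w2`): `g ∈ ptI w0 w2`.  Write `g = ∑ i, a i ⊗ f i` with `f` linearly independent over `L` (`f` a finite `L`-basis of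
`S'.L n`, `Module.finBasis`, as `tr_repr` in `H24/TU/Trans.lean`): `0 = pt w0 w2 g = ∑ z0 (a i) * z2 (f i)`, so `a = 0` by `hinj`, `g = 0`.
-/

set_option autoImplicit false

open scoped TensorProduct

namespace Pool.Agent.H41.TQ

open Pool.Agent.H24.TU

universe u

private theorem rl_repr {k K X : Type u} [Field k] [Field K] [Algebra k K] [Field X] [Algebra k X]
    {ι : Type*} [Fintype ι] (b : ι → K) (L' : Submodule k K) (hb : L' = Submodule.span k (Set.range b))
    {u : X ⊗[k] K} (hu : u ∈ L'.baseChange X) : ∃ α : ι → X, u = ∑ i, α i ⊗ₜ[k] b i := by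
  rw [hb, Submodule.baseChange_span, ← Set.range_comp] at hu
  obtain ⟨c, hc⟩ := (Submodule.mem_span_range_iff_exists_fun X).1 hu
  refine ⟨c, ?_⟩
  rw [← hc]
  refine Finset.sum_congr rfl fun i _ => ?_
  simp [TensorProduct.smul_tmul']

private theorem rl_basis {k K : Type u} [Field k] [Field K] [Algebra k K] (L' : Submodule k K)
    (hL : FiniteDimensional k L') : ∃ (m : ℕ) (f : Fin m → K), LinearIndependent k f ∧
      L' = Submodule.span k (Set.range f) := by
  refine ⟨_, fun i => ((Module.finBasis k L' i : L') : K), ?_, ?_⟩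
  · exact (Module.finBasis k L').linearIndependent.map' L'.subtype (Submodule.ker_subtype _)
  · have h9 := (Module.finBasis k L').span_eq
    have h10 := congrArg (Submodule.map L'.subtype) h9
    rw [Submodule.map_span, ← Set.range_comp, Submodule.map_subtype_top] at h10
    exact h10.symm

private theorem rl_span {k K : Type u} [Field k] [Field K] [Algebra k K] (L F : IntermediateField k K)
    (h : L ≤ F) (s : Set K) {f : K} (hf : f ∈ Submodule.span L s) : f ∈ Submodule.span F s := by
  induction hf using Submodule.span_induction with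
  | mem x hx => exact Submodule.subset_span hx
  | zero => exact Submodule.zero_mem _
  | add x y _ _ hx hy => exact Submodule.add_mem _ hx hy
  | smul c x _ hx =>
    have h1 : c • x = (⟨(c : K), h c.2⟩ : F) • x := rfl
    rw [h1]
    exact Submodule.smul_mem _ _ hx

private theorem rl_step {k K Om : Type u} [Field k] [CharZero k] [Field K] [Field Om] [Algebra k K]
    (S : GSys k K) (L F : IntermediateField k K) [Algebra L Om] [Algebra.EssFiniteType L K]
    [CharZero L] (hLF : L ≤ F) (hF : Algebra.trdeg F K = 1) (hc : ∀ f : K, IsAlgebraic F f → f ∈ F)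
    (n : ℕ) (a y z : K →ₐ[L] Om) (hyz : ∀ f ∈ F, y f = z f) (r : ℕ) {g : K ⊗[L] K}
    (hg : g ∈ (extS S L).M K n)
    (h : OrdGE (ptI a y) (r + Module.finrank F (Submodule.span F (S.L n : Set K))) g) :
    OrdGE (ptI a z) (r + 1) g := by
  obtain ⟨D, hD⟩ := exists_der F hF hc
  obtain ⟨e, he, hS⟩ := exists_basis F D hD S n
  exact ord_step (extS S L) (derL L F hLF D) e he n
    (fun f hf => hS f (rl_span L F hLF _ hf)) a y z (fun f hf => hyz f ((hD f).1 hf)) r hg h

theorem rel_bound {k K Om : Type u} [Field k] [CharZero k] [Field K] [Field Om] [Algebra k K] [Algebra k Om]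
    [Algebra.EssFiniteType k K] (S : GSys k K) (L F F' : IntermediateField k K) (hLF : L ≤ F) (hLF' : L ≤ F')
    (hL : Algebra.trdeg L K = 2) (hF : Algebra.trdeg F K = 1) (hF' : Algebra.trdeg F' K = 1)
    (hc : ∀ f : K, IsAlgebraic F f → f ∈ F) (hc' : ∀ f : K, IsAlgebraic F' f → f ∈ F')
    (z0 z1 z2 : K →ₐ[k] Om) (h01 : ∀ f ∈ F, z0 f = z1 f) (h12 : ∀ f ∈ F', z1 f = z2 f)
    (hinj : ∀ (m : ℕ) (f : Fin m → K), LinearIndependent L f → ∀ a : Fin m → K,
      ∑ i, z0 (a i) * z2 (f i) = 0 → a = 0) (n : ℕ) :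
    Module.finrank L (Submodule.span L (S.L n : Set K)) ≤
      (Module.finrank F (Submodule.span F (S.L n : Set K)) +
        Module.finrank F' (Submodule.span F' (S.L n : Set K)) + 1).choose 2 := by
  let _ : Algebra L Om := (z0.toRingHom.comp (algebraMap L K)).toAlgebra
  have : CharZero L := charZero_of_injective_algebraMap (algebraMap k L).injective
  have : Algebra.EssFiniteType L K := Algebra.EssFiniteType.of_comp k L K
  let w0 : K →ₐ[L] Om := { z0.toRingHom with commutes' := fun r => rfl }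
  let w1 : K →ₐ[L] Om := { z1.toRingHom with commutes' := fun r => (h01 r (hLF r.2)).symm }
  let w2 : K →ₐ[L] Om := { z2.toRingHom with
    commutes' := fun r => (h12 r (hLF' r.2)).symm.trans (h01 r (hLF r.2)).symm }
  have hw0 : ∀ f, w0 f = z0 f := fun _ => rfl
  have hw1 : ∀ f, w1 f = z1 f := fun _ => rfl
  have hw2 : ∀ f, w2 f = z2 f := fun _ => rfl
  rw [← extS_L S L n, ← finrank_M (X := K) (extS S L) n]
  refine jet_two hL ((extS S L).M K n) _ (fun g hg hord => ?_)
  have h1 : dI L K ≤ ptI w0 w0 := by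
    intro x hx
    rw [dI, mem_ptI] at hx
    rw [mem_ptI]
    have h2 : ∀ x : K ⊗[L] K, pt w0 w0 x = w0 (pt (AlgHom.id L K) (AlgHom.id L K) x) := by
      intro x
      induction x using TensorProduct.induction_on with
      | zero => simp
      | add a b ha hb => rw [map_add, map_add, map_add, ha, hb]
      | tmul a f => rw [pt_tmul, pt_tmul, map_mul]; rfl
    rw [h2, hx, map_zero]
  have h2 := OrdGE_le h1 hord
  rw [add_comm] at h2
  have h3 := rl_step S L F hLF hF hc n w0 w0 w1 (fun f hf => h01 f hf) _ hg h2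
  have h4 := OrdGE_mono (Nat.le_succ _) h3
  rw [← zero_add (Module.finrank F' (Submodule.span F' (S.L n : Set K)))] at h4
  have h5 := rl_step S L F' hLF' hF' hc' n w0 w1 w2 (fun f hf => h12 f hf) 0 hg h4
  have h6 : pt w0 w2 g = 0 := mem_ptI.1 h5.1
  obtain ⟨m, b, hb1, hb2⟩ := rl_basis ((extS S L).L n) ((extS S L).fin n)
  obtain ⟨α, hα⟩ := rl_repr (X := K) b _ hb2 hg
  have h11 : α = 0 := by
    refine hinj m b hb1 α ?_
    rw [hα, map_sum] at h6
    rw [← h6]
    refine Finset.sum_congr rfl fun i _ => ?_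
    rw [pt_tmul, hw0, hw2]
  rw [hα, h11]
  simp

end Pool.Agent.H41.TQ
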