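import Pool.Agent.H24.TU.Fld

/-!
# [H41 TQ Tdg] THEOREM Q, chapter (6): the transcendence degree of `K` over `eqF x y`

`trdeg_eqF` of `H24/TU/Fld.lean` without the hypothesis that the degree is `1`.

PROOF.  The last four lines of the proof of `trdeg_eqF` prove exactly this.  Its private lemmas `fl_lin`, `fl_rho`, `fl_rho_apply`, `fl_rho_F`,
`fl_algInd`, `fl_alg` have to be copied (private, with another prefix `tdg_`); `linIndep_quot` and `mem_ptI_eqF` are public.
-/

set_option autoImplicit false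

open scoped TensorProduct

namespace Pool.Agent.H41.TQ

open Pool.Agent.H24.TU

universe u

variable {k K κ : Type u} [Field k] [Field K] [Field κ] [Algebra k K] [Algebra k κ]

private theorem tdg_lin (x y : K →ₐ[k] κ)
    (hle : (ptI x y).map (chg K x) ≤ (ptI x y).map (chg K y)) (hPI : ptI x y ≤ dI k K)
    {ι : Type*} (f : ι → K) (hf : LinearIndependent (eqF x y) f) :
    LinearIndependent K (fun i => Ideal.Quotient.mk (ptI x y) ((1 : K) ⊗ₜ[k] f i)) := by
  rw [linearIndependent_iff_finset_linearIndependent]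
  intro s
  exact linIndep_quot x y hle hPI (fun i : s => f i) (hf.comp _ Subtype.val_injective)

/-- The right factor in the quotient. -/
private noncomputable def tdg_rho (P : Ideal (K ⊗[k] K)) : K →+* ((K ⊗[k] K) ⧸ P) :=
  (Ideal.Quotient.mk P).comp (Algebra.TensorProduct.includeRight : K →ₐ[k] K ⊗[k] K).toRingHom

private theorem tdg_rho_apply (P : Ideal (K ⊗[k] K)) (f : K) :
    tdg_rho P f = Ideal.Quotient.mk P ((1 : K) ⊗ₜ[k] f) := rfl

private theorem tdg_rho_F (x y : K →ₐ[k] κ) {f : K} (hf : f ∈ eqF x y) :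
    tdg_rho (ptI x y) f = algebraMap K ((K ⊗[k] K) ⧸ ptI x y) f := by
  rw [tdg_rho_apply]
  exact (Ideal.Quotient.eq).2 (mem_ptI_eqF x y hf)

private theorem tdg_algInd (x y : K →ₐ[k] κ)
    (hle : (ptI x y).map (chg K x) ≤ (ptI x y).map (chg K y)) (hPI : ptI x y ≤ dI k K)
    {ι : Type*} (u : ι → K) (hu : AlgebraicIndependent (eqF x y) u) :
    AlgebraicIndependent K (fun i => tdg_rho (ptI x y) (u i)) := by
  have h1 : LinearIndependent (eqF x y) (fun m : ι →₀ ℕ => m.prod fun i n => u i ^ n) := by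
    have h2 := (MvPolynomial.basisMonomials ι (eqF x y)).linearIndependent.map'
      (MvPolynomial.aeval u : MvPolynomial ι (eqF x y) →ₐ[eqF x y] K).toLinearMap
      (LinearMap.ker_eq_bot.2 hu)
    have h3 : (⇑(MvPolynomial.aeval u : MvPolynomial ι (eqF x y) →ₐ[eqF x y] K).toLinearMap ∘
        ⇑(MvPolynomial.basisMonomials ι (eqF x y))) =
        fun m : ι →₀ ℕ => m.prod fun i n => u i ^ n := by
      funext m
      rw [Function.comp_apply, MvPolynomial.coe_basisMonomials]
      show MvPolynomial.aeval u (MvPolynomial.monomial m 1) = _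
      rw [MvPolynomial.aeval_monomial, map_one, one_mul]
    rwa [h3] at h2
  have h2 := tdg_lin x y hle hPI _ h1
  show Function.Injective (MvPolynomial.aeval fun i => tdg_rho (ptI x y) (u i))
  rw [injective_iff_map_eq_zero]
  intro p hp
  have h3 : ∑ m ∈ p.support, p.coeff m •
      Ideal.Quotient.mk (ptI x y) ((1 : K) ⊗ₜ[k] (m.prod fun i n => u i ^ n)) = 0 := by
    rw [← hp, MvPolynomial.aeval_def, MvPolynomial.eval₂_eq]
    refine Finset.sum_congr rfl fun m _ => ?_
    rw [← tdg_rho_apply]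
    refine (Algebra.smul_def (p.coeff m)
      (tdg_rho (ptI x y) (m.prod fun i n => u i ^ n))).trans ?_
    rw [Finsupp.prod, map_prod]
    congr 1
    exact Finset.prod_congr rfl fun i _ => map_pow _ _ _
  have h4 := linearIndependent_iff'.1 h2 p.support (fun m => p.coeff m) h3
  ext m
  by_cases hm : m ∈ p.support
  · exact h4 m hm
  · rw [MvPolynomial.notMem_support_iff.1 hm, MvPolynomial.coeff_zero]

private theorem tdg_alg (x y : K →ₐ[k] κ) {ι : Type*} (u : ι → K)
    (hu : Algebra.IsAlgebraic (Algebra.adjoin (eqF x y) (Set.range u)) K) :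
    Algebra.IsAlgebraic (Algebra.adjoin K (Set.range fun i => tdg_rho (ptI x y) (u i)))
      ((K ⊗[k] K) ⧸ ptI x y) := by
  have : IsDomain ((K ⊗[k] K) ⧸ ptI x y) := Ideal.Quotient.isDomain _
  have hmem : ∀ a ∈ Algebra.adjoin (eqF x y) (Set.range u),
      tdg_rho (ptI x y) a ∈ Algebra.adjoin K (Set.range fun i => tdg_rho (ptI x y) (u i)) := by
    intro a ha
    induction ha using Algebra.adjoin_induction with
    | mem a ha =>
      obtain ⟨i, rfl⟩ := ha
      exact Algebra.subset_adjoin ⟨i, rfl⟩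
    | algebraMap φ =>
      have h := tdg_rho_F x y φ.2
      have h1 : algebraMap (eqF x y) K φ = (φ : K) := rfl
      rw [h1, h]
      exact Subalgebra.algebraMap_mem _ _
    | add a b _ _ ha hb => rw [map_add]; exact Subalgebra.add_mem _ ha hb
    | mul a b _ _ ha hb => rw [map_mul]; exact Subalgebra.mul_mem _ ha hb
  let θ : Algebra.adjoin (eqF x y) (Set.range u) →+*
      Algebra.adjoin K (Set.range fun i => tdg_rho (ptI x y) (u i)) :=
    ((tdg_rho (ptI x y)).comp (algebraMap (Algebra.adjoin (eqF x y) (Set.range u)) K)).codRestrict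
      (Algebra.adjoin K (Set.range fun i => tdg_rho (ptI x y) (u i))) (fun a => hmem a a.2)
  have hθ : (algebraMap (Algebra.adjoin K (Set.range fun i => tdg_rho (ptI x y) (u i)))
      ((K ⊗[k] K) ⧸ ptI x y)).comp θ =
      (tdg_rho (ptI x y)).comp (algebraMap (Algebra.adjoin (eqF x y) (Set.range u)) K) := by
    ext a
    rfl
  have hθi : Function.Injective θ := by
    intro a b hab
    have h1 := congrArg (algebraMap (Algebra.adjoin K
      (Set.range fun i => tdg_rho (ptI x y) (u i))) ((K ⊗[k] K) ⧸ ptI x y)) hab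
    have h2 : tdg_rho (ptI x y) (a : K) = tdg_rho (ptI x y) (b : K) := h1
    exact Subtype.ext ((tdg_rho (ptI x y)).injective h2)
  have hr : ∀ f : K, IsAlgebraic
      (Algebra.adjoin K (Set.range fun i => tdg_rho (ptI x y) (u i))) (tdg_rho (ptI x y) f) := by
    intro f
    obtain ⟨q, hq, hq0⟩ := hu.isAlgebraic f
    refine ⟨q.map θ, (Polynomial.map_ne_zero_iff hθi).2 hq, ?_⟩
    rw [Polynomial.aeval_def, Polynomial.eval₂_map, hθ, ← Polynomial.hom_eval₂]
    rw [Polynomial.aeval_def] at hq0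
    rw [hq0, map_zero]
  constructor
  intro z
  obtain ⟨t, rfl⟩ := Ideal.Quotient.mk_surjective z
  have key : Ideal.Quotient.mk (ptI x y) t ∈ Subalgebra.algebraicClosure
      (Algebra.adjoin K (Set.range fun i => tdg_rho (ptI x y) (u i)))
      ((K ⊗[k] K) ⧸ ptI x y) := by
    induction t using TensorProduct.induction_on with
    | zero => rw [map_zero]; exact Subalgebra.zero_mem _
    | add a b ha hb => rw [map_add]; exact Subalgebra.add_mem _ ha hb
    | tmul a f =>
      have h1 : Ideal.Quotient.mk (ptI x y) (a ⊗ₜ[k] f) =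
          algebraMap K ((K ⊗[k] K) ⧸ ptI x y) a * tdg_rho (ptI x y) f := by
        have h2 : (a ⊗ₜ[k] f : K ⊗[k] K) = (a ⊗ₜ[k] (1 : K)) * ((1 : K) ⊗ₜ[k] f) := by
          rw [Algebra.TensorProduct.tmul_mul_tmul, one_mul, mul_one]
        rw [h2, map_mul]
        rfl
      rw [h1]
      refine Subalgebra.mul_mem _ ?_ (hr f)
      exact Subalgebra.algebraMap_mem (Subalgebra.algebraicClosure
        (Algebra.adjoin K (Set.range fun i => tdg_rho (ptI x y) (u i)))
        ((K ⊗[k] K) ⧸ ptI x y)) (⟨_, Subalgebra.algebraMap_mem _ a⟩ :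
        Algebra.adjoin K (Set.range fun i => tdg_rho (ptI x y) (u i)))
  exact key

theorem trdeg_eqF' (x y : K →ₐ[k] κ)
    (hle : (ptI x y).map (chg K x) ≤ (ptI x y).map (chg K y)) (hPI : ptI x y ≤ dI k K) :
    Algebra.trdeg (eqF x y) K = Algebra.trdeg K ((K ⊗[k] K) ⧸ ptI x y) := by
  have : IsDomain ((K ⊗[k] K) ⧸ ptI x y) := Ideal.Quotient.isDomain _
  obtain ⟨s, hs⟩ := exists_isTranscendenceBasis (eqF x y) K
  have h1 : IsTranscendenceBasis K (fun i : s => tdg_rho (ptI x y) (i : K)) :=
    isTranscendenceBasis_iff_algebraicIndependent_isAlgebraic.2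
      ⟨tdg_algInd x y hle hPI _ hs.1, tdg_alg x y _ hs.isAlgebraic⟩
  rw [← hs.cardinalMk_eq_trdeg, h1.cardinalMk_eq_trdeg]

end Pool.Agent.H41.TQ
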