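import Pool.Agent.H24.TU.Coo
import Pool.Agent.H41.TQ.GenA
import Pool.Agent.H41.TQ.Cls
import Pool.Agent.H41.TQ.Tdg
import Pool.Agent.H41.TQ.Exo
import Pool.Agent.H41.TQ.Dom
import Pool.Agent.H41.TQ.Fne
import Pool.Agent.H41.TQ.Rel

/-!
# [H41 TQ Two] THEOREM Q, chapter (6), end: two families of curves of small degree

`F ≠ F'` algebraically closed in `K`, `trdeg_F K = trdeg_F' K = 1`, `u n = dim_F (F L_n)`, `u' n = dim_F' (F' L_n)`.  If for some `n`
`(2 (u n + u' n) + 3).choose 3 < dim L_n` then there is a field `L ≤ F ∩ F'` with `trdeg_L K = 2` and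
`dim_L (L L_m) ≤ (u m + u' m + 1).choose 2` for all `m`.
-/

set_option autoImplicit false

open scoped TensorProduct

namespace Pool.Agent.H41.TQ

open Pool.Agent.H24.TU

universe u

private theorem two_pt {k K κ κ' : Type u} [Field k] [Field K] [Field κ] [Field κ'] [Algebra k K] [Algebra k κ] [Algebra k κ']
    (a z : K →ₐ[k] κ) (j : κ →ₐ[k] κ') (g : K ⊗[k] K) : pt (j.comp a) (j.comp z) g = j (pt a z g) := by
  induction g using TensorProduct.induction_on with
  | zero => simp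
  | add x y hx hy => simp only [map_add, hx, hy]
  | tmul x f => simp

private theorem two_pt' {k K κ κ' : Type u} [Field k] [Field K] [Field κ] [Field κ'] [Algebra k K] [Algebra k κ] [Algebra k κ']
    (a : K →ₐ[k] κ) (j : κ →ₐ[k] κ') (z : K →ₐ[k] κ') (g : K ⊗[k] K) : pt (j.comp a) z g = pt j z (chg K a g) := by
  induction g using TensorProduct.induction_on with
  | zero => simp
  | add x y hx hy => simp only [map_add, hx, hy]
  | tmul x f => simp

theorem chain_field {k K : Type u} [Field k] [CharZero k] [IsAlgClosed k] [Field K] [Algebra k K]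
    [Algebra.EssFiniteType k K] (htr : Algebra.trdeg k K = 3) (S : GSys k K) (F F' : IntermediateField k K)
    (hF : Algebra.trdeg F K = 1) (hF' : Algebra.trdeg F' K = 1)
    (hc : ∀ f : K, IsAlgebraic F f → f ∈ F) (hc' : ∀ f : K, IsAlgebraic F' f → f ∈ F') (hne : F ≠ F') (n : ℕ)
    (hn : (2 * (Module.finrank F (Submodule.span F (S.L n : Set K)) +
        Module.finrank F' (Submodule.span F' (S.L n : Set K))) + 3).choose 3 < Module.finrank k (S.L n)) :
    ∃ L : IntermediateField k K, L ≤ F ∧ L ≤ F' ∧ Algebra.trdeg L K = 2 ∧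
      ∀ m, Module.finrank L (Submodule.span L (S.L m : Set K)) ≤
        (Module.finrank F (Submodule.span F (S.L m : Set K)) +
          Module.finrank F' (Submodule.span F' (S.L m : Set K)) + 1).choose 2 := by
  classical
  obtain ⟨C⟩ := exists_coord (k := k) (K := K) htr
  obtain ⟨κ1, _, _, j1, z1, h1F, h1I, h1t⟩ := exists_gen F (AlgHom.id k K)
  obtain ⟨κ2, _, _, j2, z2, h2F, h2I, h2t⟩ := exists_gen F' z1
  obtain ⟨x, hx⟩ : ∃ x : K →ₐ[k] κ2, x = j2.comp j1 := ⟨_, rfl⟩
  obtain ⟨w, hw⟩ : ∃ w : K →ₐ[k] κ2, w = j2.comp z1 := ⟨_, rfl⟩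
  have hxa : ∀ f, x f = j2 (j1 f) := fun f => by rw [hx]; rfl
  have hwa : ∀ f, w f = j2 (z1 f) := fun f => by rw [hw]; rfl
  have h01 : ∀ f ∈ F, x f = w f := fun f hf => by
    rw [hxa, hwa, h1F f hf]
    rfl
  have h12 : ∀ f ∈ F', w f = z2 f := fun f hf => by rw [hwa, h2F f hf]
  -- transcendental elements
  have ht : ∀ f : K, f ∉ F → x f ≠ w f := fun f hf h => by
    rw [hxa, hwa] at h
    exact h1t f (fun ha => hf (hc f ha)) f (j2.toRingHom.injective h).symm
  have ht' : ∀ f : K, f ∉ F' → z2 f ≠ w f := fun f hf h => by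
    rw [hwa] at h
    exact h2t f (fun ha => hf (hc' f ha)) (z1 f) h
  -- the primes
  have hPI : ptI x w ≤ dI k K := by
    intro g hg
    rw [mem_ptI, hx, hw, two_pt, map_eq_zero] at hg
    exact h1I (mem_ptI.2 hg)
  have hQP : ptI x z2 ≤ ptI x w := by
    intro g hg
    rw [mem_ptI, hx, two_pt'] at hg
    have h1 := h2I (mem_ptI.2 hg)
    rw [mem_ptI] at h1 ⊢
    rw [hx, hw, two_pt]
    have h2 := two_pt' j1 (AlgHom.id k κ1) z1 g
    rw [← h2, AlgHom.id_comp] at h1
    rw [h1, map_zero]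
  have hdiag : ∀ f : K, (1 : K) ⊗ₜ[k] f - f ⊗ₜ[k] (1 : K) ∈ dI k K := fun f => by
    unfold dI
    rw [mem_ptI, map_sub, pt_tmul, pt_tmul]
    simp
  have hmem : ∀ (a z : K →ₐ[k] κ2) (f : K), (1 : K) ⊗ₜ[k] f - f ⊗ₜ[k] (1 : K) ∈ ptI a z ↔ a f = z f := by
    intro a z f
    rw [mem_ptI, map_sub, pt_tmul, pt_tmul, map_one, map_one, one_mul, mul_one, sub_eq_zero]
    exact eq_comm
  have hPI' : ptI x w < dI k K := by
    refine lt_of_le_of_ne hPI fun h => ?_
    obtain ⟨f, -, hf⟩ := exists_not_mem F' F hF' hF hc' hne.symm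
    have h1 := hdiag f
    rw [← h, hmem] at h1
    exact ht f hf h1
  have hQP' : ptI x z2 < ptI x w := by
    refine lt_of_le_of_ne hQP fun h => ?_
    obtain ⟨f, hf, hf'⟩ := exists_not_mem F F' hF hF' hc hne
    have h1 := (hmem x w f).2 (h01 f hf)
    rw [← h, hmem] at h1
    exact ht' f hf' (by rw [← h1, h01 f hf])
  -- the loss
  obtain ⟨D, hD⟩ := exists_der F hF hc
  obtain ⟨D', hD'⟩ := exists_der F' hF' hc'
  obtain ⟨u, hu⟩ : ∃ u, u = Module.finrank F (Submodule.span F (S.L n : Set K)) := ⟨_, rfl⟩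
  obtain ⟨u', hu'⟩ : ∃ u', u' = Module.finrank F' (Submodule.span F' (S.L n : Set K)) := ⟨_, rfl⟩
  rw [← hu, ← hu'] at hn
  have hdI : dI k K = ptI x x := by
    ext g
    unfold dI
    rw [mem_ptI, mem_ptI]
    have h1 := two_pt (AlgHom.id k K) (AlgHom.id k K) x g
    rw [AlgHom.comp_id] at h1
    rw [h1]
    exact (map_eq_zero x).symm
  have hl : ∀ f ∈ S.M K n, ∀ r, OrdGE (dI k K) (r + (u + u')) f → OrdGE (ptI x z2) r f := by
    intro f hf r hr
    obtain ⟨e, he, hS⟩ := exists_basis F D hD S n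
    obtain ⟨e', he', hS'⟩ := exists_basis F' D' hD' S n
    rw [hdI] at hr
    have h1 : OrdGE (ptI x w) (r + u' + 1) f := by
      refine ord_step S (D.restrictScalars k) e he n (fun f hf => hS f (Submodule.subset_span hf)) x x w
        (fun f hf => h01 f ((hD f).1 hf)) (r + u') hf ?_
      rw [← hu]
      rwa [show r + u' + u = r + (u + u') by omega]
    have h2 : OrdGE (ptI x z2) (r + 1) f := by
      refine ord_step S (D'.restrictScalars k) e' he' n (fun f hf => hS' f (Submodule.subset_span hf)) x w z2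
        (fun f hf => h12 f ((hD' f).1 hf)) r hf ?_
      rw [← hu']
      exact OrdGE_mono (by omega) h1
    exact OrdGE_mono (by omega) h2
  -- an element of high order
  obtain ⟨g, hg, hg0, hgs⟩ := exists_ord C (S.M K n) (2 * (u + u') + 1) (by
    rw [finrank_M]
    exact hn)
  have hgQ : g ∈ ptI x z2 := (hl g hg 1 (OrdGE_mono (by omega) hgs)).1
  have hQ0 : ptI x z2 ≠ ⊥ := fun h => hg0 (by
    rw [h] at hgQ
    exact (Submodule.mem_bot _).1 hgQ)
  obtain ⟨htrQ, hmin⟩ := trdeg_two htr C inferInstance inferInstance hQP' hPI' hQ0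
  have hcl := closed_of_ord S x z2 (hQP.trans hPI) n (u + u') (2 * (u + u') + 1) (by omega) hl hg hgs
    (fun Q hQ hle hgQ' => hmin Q hQ hle (fun h => hg0 (by
      rw [h] at hgQ'
      exact (Submodule.mem_bot _).1 hgQ')))
  have hL := trdeg_eqF' x z2 hcl (hQP.trans hPI)
  rw [htrQ] at hL
  have hLF : eqF x z2 ≤ F := by
    intro f hf
    by_contra hcon
    have h1 := hQP ((hmem x z2 f).2 hf)
    rw [hmem] at h1
    exact ht f hcon h1
  have hLF' : eqF x z2 ≤ F' := by
    intro f hf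
    by_contra hcon
    have h1 : x f = z2 f := hf
    exact ht' f hcon (by rw [← h1, h01 f (hLF hf)])
  refine ⟨eqF x z2, hLF, hLF', hL, fun m => ?_⟩
  refine rel_bound S (eqF x z2) F F' hLF hLF' hL hF hF' hc hc' x w z2 h01 h12 (fun m f hf a ha => ?_) m
  have h1 := linIndep_quot x z2 hcl (hQP.trans hPI) f hf
  rw [Fintype.linearIndependent_iff] at h1
  funext i
  refine h1 a ?_ i
  have h2 : ∑ i, a i ⊗ₜ[k] f i ∈ ptI x z2 := by
    rw [mem_ptI, map_sum, ← ha]
    exact Finset.sum_congr rfl fun i _ => pt_tmul _ _ _ _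
  rw [← Ideal.Quotient.eq_zero_iff_mem, map_sum] at h2
  rw [← h2]
  refine Finset.sum_congr rfl fun i _ => ?_
  have h3 : a i ⊗ₜ[k] f i = a i • ((1 : K) ⊗ₜ[k] f i) := by
    simp [TensorProduct.smul_tmul']
  rw [h3]
  rfl

end Pool.Agent.H41.TQ
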